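import Mathlib

/-! Definitions: hyperbolic fixed points and homoclinic points. -/

open scoped ContDiff Manifold Topology

namespace Pool.Agent.HM

/-- The linear map `A` is hyperbolic: it has an inverse `B` and commutes with a linear map `P` such
that `A^k P` and `A^{-k} (1 - P)` have norm at most `C θ^k` for all `k ≥ 0`, for some `C` and
`θ < 1`. -/
def HypLin {E : Type} [NormedAddCommGroup E] [NormedSpace ℝ E] (A : E →L[ℝ] E) : Prop :=
  ∃ (B P : E →L[ℝ] E) (C θ : ℝ), 0 ≤ C ∧ 0 ≤ θ ∧ θ < 1 ∧ (∀ x, A (B x) = x) ∧ (∀ x, B (A x) = x) ∧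
    (∀ x, P (A x) = A (P x)) ∧ (∀ (k : ℕ) x, ‖(⇑A)^[k] (P x)‖ ≤ C * θ ^ k * ‖x‖) ∧
    ∀ (k : ℕ) x, ‖(⇑B)^[k] (x - P x)‖ ≤ C * θ ^ k * ‖x‖

variable {E : Type} [NormedAddCommGroup E] [NormedSpace ℝ E] {H : Type} [TopologicalSpace H]
  (J : ModelWithCorners ℝ E H) {N : Type} [TopologicalSpace N] [ChartedSpace H N]

/-- `p` is a hyperbolic fixed point of `h`: `h p = p` and the derivative of `h` at `p` is
hyperbolic. -/
def HypFixed (h : N → N) (p : N) : Prop :=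
  h p = p ∧ HypLin (E := E) (mfderiv J J h p)

/-- `q` is a homoclinic point of a hyperbolic fixed point `p ≠ q` of `g^m`: `g^(mj) q → p` for
`j → ∞` and for `j → -∞`. -/
def HomoclinicPt (g : N ≃ N) (m : ℕ) (q : N) : Prop :=
  ∃ p, HypFixed J (⇑g)^[m] p ∧ q ≠ p ∧
    Filter.Tendsto (fun j : ℕ => (⇑g)^[m * j] q) Filter.atTop (𝓝 p) ∧
    Filter.Tendsto (fun j : ℕ => (⇑g.symm)^[m * j] q) Filter.atTop (𝓝 p)

end Pool.Agent.HM
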