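import Pool.Agent.Lib.MP_1e8d1a_an.HM.Defs
import Pool.Agent.Lib.MP_1e8d1a_an.IR.Defs
import Pool.Agent.Lib.MP_1e8d1a_an.SC.Defs3

/-! Definitions used in the statement of the final theorem. -/

open scoped ContDiff Manifold Topology

namespace Pool.Agent.HM

open Pool.Agent.SC

variable {E : Type} [NormedAddCommGroup E] [NormedSpace ℝ E] {H : Type} [TopologicalSpace H]
  (J : ModelWithCorners ℝ E H) {N : Type} [TopologicalSpace N] [ChartedSpace H N]

/-- `w` is a good point of `g` for the period `m`: the dimension is at least two and `g^m` is the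
identity near `w`, or `w` is a homoclinic point of a hyperbolic fixed point of `g^m`. -/
def GoodPt (g : N ≃ N) (m : ℕ) (w : N) : Prop :=
  (2 ≤ Module.finrank ℝ E ∧ ∀ᶠ z in 𝓝 w, (⇑g)^[m] z = z) ∨ HomoclinicPt J g m w

/-- `(g, w)` is a limit of pairs `(g', w')` such that `w'` is a good point of `g'` for a period
`m > 0` for which `x` is nonwandering for `f^m`. -/
def LimitOfGood (r : ℕ∞) {M : Type} [TopologicalSpace M] (f : M → M) (x : M)
    (g : N ≃ₘ^r⟮J, J⟯ N) (w : N) : Prop :=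
  ∀ U ∈ @nhds _ (crTopology J r) g, ∀ V ∈ 𝓝 w, ∃ g' ∈ U, ∃ w' ∈ V, ∃ m : ℕ, 0 < m ∧
    NonwanderingPt f^[m] x ∧ GoodPt J g'.toEquiv m w'

end Pool.Agent.HM
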