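import Pool.Agent.Lib.MP_1e8d1a_an.HM.Top
import Pool.Agent.Lib.MP_1e8d1a_an.IR.Prod
import Pool.Agent.Lib.MP_1e8d1a_an.SC.Defs3

/-! Products with a diffeomorphism that has homoclinic points near `w`. -/

open scoped ContDiff Manifold Topology

namespace Pool.Agent.HM

open Pool.Agent.SC

/-- isolated returns of a product at a point with cycles in the second factor -/
theorem isolatedReturns_of_cycles {B Y : Type} [TopologicalSpace B] [T2Space B]
    [TopologicalSpace Y] {T : B → B} (hT : Continuous T) {g : Y → Y} {m : ℕ} (hm : 0 < m) {q : Y}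
    (hg : CyclesAt g m q) {b : B} (hb : NonwanderingPt T^[m] b) :
    IsolatedReturns (Prod.map T g) (b, q) := by
  obtain ⟨J, hJ, hU⟩ := hg
  refine ⟨Prod.snd ⁻¹' J, continuous_snd.continuousAt hJ, fun U hUq => ?_⟩
  obtain ⟨A, hA, D, hD, hAD⟩ := mem_nhds_prod_iff.1 hUq
  obtain ⟨N₀, hN₀⟩ := hU D hD
  obtain ⟨n, hn, hn0, y, hy, hny⟩ := hb.large (hT.iterate m) N₀ A hA
  obtain ⟨z, hz, hz1, hz2⟩ := hN₀ n hn
  refine ⟨(y, z), hAD ⟨hy, hz⟩, m * n, Nat.mul_pos hm hn0, ?_, fun i h1 h2 h3 => ?_⟩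
  · rw [ir_iter_prod]
    rw [← Function.iterate_mul] at hny
    exact hAD ⟨hny, hz1⟩
  · rw [ir_iter_prod] at h3
    exact hz2 i h1 h2 h3

variable {E : Type} [NormedAddCommGroup E] [NormedSpace ℝ E] {H : Type} [TopologicalSpace H]
  {I : ModelWithCorners ℝ E H} {M : Type} [TopologicalSpace M] [ChartedSpace H M]
  {E' : Type} [NormedAddCommGroup E'] [NormedSpace ℝ E'] {H' : Type} [TopologicalSpace H']
  {J : ModelWithCorners ℝ E' H'} {N : Type} [TopologicalSpace N] [ChartedSpace H' N]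

theorem contMDiff_iter {r : ℕ∞} (g : N ≃ₘ^r⟮J, J⟯ N) (m : ℕ) : ContMDiff J J r (⇑g)^[m] := by
  induction m with
  | zero => exact contMDiff_id
  | succ m ih => exact ih.comp g.contMDiff

theorem cyclesAt_homoclinic [FiniteDimensional ℝ E'] [T2Space N] [IsManifold J ∞ N]
    [J.Boundaryless] {r : ℕ∞} (hr : 1 ≤ r) (g : N ≃ₘ^r⟮J, J⟯ N) {m : ℕ} (hm : 0 < m) {q : N}
    (hq : HomoclinicPt J g.toEquiv m q) : CyclesAt ⇑g m q := by
  obtain ⟨p, hp, hqp, hf, hb⟩ := hq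
  have hc : CompleteSpace E' := FiniteDimensional.complete ℝ E'
  have hr' : (1 : WithTop ℕ∞) ≤ (r : WithTop ℕ∞) := by exact_mod_cast hr
  have h1 : ContMDiff J J 1 (⇑g)^[m] := (contMDiff_iter g m).of_le hr'
  have hlink : LinkAt (⇑g)^[m] p :=
    linkAt_of_hyp (J := J) (⇑g)^[m] p (g.continuous.iterate m) h1.contMDiffAt hp
  exact cyclesAt_of_homoclinic g.toHomeomorph hm hp.1 hlink hqp hf hb

/-- **Closing for products**, `w` a limit of homoclinic points. -/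
theorem closable_homoclinic [FiniteDimensional ℝ E] [T2Space M] [CompactSpace M]
    [IsManifold I ∞ M] [I.Boundaryless] [FiniteDimensional ℝ E'] [T2Space N] [CompactSpace N]
    [IsManifold J ∞ N] [J.Boundaryless] {r : ℕ∞} (hr : 1 ≤ r) (f : M ≃ₘ^r⟮I, I⟯ M) (x : M)
    (g : N ≃ₘ^r⟮J, J⟯ N) (w : N)
    (hw : w ∈ closure {q | ∃ m, 0 < m ∧ NonwanderingPt (⇑f)^[m] x ∧
      HomoclinicPt J g.toEquiv m q}) : ProdClosable I J r f g x w := by
  intro F hF
  refine closable_of_isolated F (x, w) fun V hV => ?_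
  obtain ⟨A, hA, D, hD, hAD⟩ := mem_nhds_prod_iff.1 hV
  obtain ⟨q, hqD, m, hm, hx, hq⟩ := mem_closure_iff_nhds.1 hw D hD
  have hF' : ⇑F = Prod.map ⇑f ⇑g := funext hF
  refine ⟨(x, q), hAD ⟨mem_of_mem_nhds hA, hqD⟩, ?_⟩
  rw [hF']
  exact isolatedReturns_of_cycles f.continuous hm (cyclesAt_homoclinic hr g hm hq) hx

end Pool.Agent.HM
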