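import Pool.Agent.Lib.MP_1e8d1a_an.LC.Prod
import Pool.Agent.Lib.MP_1e8d1a_an.IR.Pair

/-! The set of pairs `(F, p)` such that `F` can be closed at `p` is closed. -/

open scoped ContDiff Manifold Topology
open Filter

namespace Pool.Agent.SC

/-- parameters as additional variables -/
theorem CK.slice {k : ℕ} : ∀ {ι V E F : Type} [TopologicalSpace ι] [NormedAddCommGroup V]
    [NormedSpace ℝ V] [NormedAddCommGroup E] [NormedSpace ℝ E]
    [NormedAddCommGroup F] [NormedSpace ℝ F] {t₀ : ι} {v₀ : V} {x₀ : E} {u : ι → V × E → F},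
    CK t₀ (v₀, x₀) k F u →
    CK (ι := ι × V) (t₀, v₀) x₀ k F (fun t x => u t.1 (t.2, x)) := by
  induction k with
  | zero =>
    intro ι V E F _ _ _ _ _ _ _ t₀ v₀ x₀ u h
    have hc : ContinuousAt (fun z : (ι × V) × E => (z.1.1, (z.1.2, z.2))) ((t₀, v₀), x₀) := by
      fun_prop
    exact ContinuousAt.comp (g := fun z : ι × (V × E) => u z.1 z.2)
      (f := fun z : (ι × V) × E => (z.1.1, (z.1.2, z.2))) (x := ((t₀, v₀), x₀)) h hc
  | succ k ih =>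
    intro ι V E F _ _ _ _ _ _ _ t₀ v₀ x₀ u h
    have hc : ContinuousAt (fun z : (ι × V) × E => (z.1.1, (z.1.2, z.2))) ((t₀, v₀), x₀) := by
      fun_prop
    have hd : ∀ᶠ z : (ι × V) × E in 𝓝 ((t₀, v₀), x₀),
        DifferentiableAt ℝ (u z.1.1) (z.1.2, z.2) :=
      hc.tendsto.eventually h.2.1
    refine ⟨ContinuousAt.comp (g := fun z : ι × (V × E) => u z.1 z.2)
      (f := fun z : (ι × V) × E => (z.1.1, (z.1.2, z.2))) (x := ((t₀, v₀), x₀)) h.1 hc, ?_, ?_⟩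
    · filter_upwards [hd] with z hz
      exact DifferentiableAt.comp (g := u z.1.1) (f := fun x : E => (z.1.2, x)) z.2 hz
        ((differentiableAt_const _).prodMk differentiableAt_id)
    · refine CK.congr (ih (CK.clm ((ContinuousLinearMap.compL ℝ E (V × E) F).flip
        (ContinuousLinearMap.inr ℝ V E)) h.2.2)) ?_
      filter_upwards [hd] with z hz
      have h1 : HasFDerivAt (fun x : E => (z.1.2, x)) (ContinuousLinearMap.inr ℝ V E) z.2 :=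
        hasFDerivAt_prodMk_right z.1.2 z.2
      exact (HasFDerivAt.comp (g := u z.1.1) (f := fun x : E => (z.1.2, x)) z.2
        hz.hasFDerivAt h1).fderiv.symm

variable {E : Type} [NormedAddCommGroup E] [NormedSpace ℝ E] [FiniteDimensional ℝ E]
  {H : Type} [TopologicalSpace H] {I : ModelWithCorners ℝ E H} [I.Boundaryless]
  {W : Type} [TopologicalSpace W] [T2Space W] [CompactSpace W] [ChartedSpace H W]
  [IsManifold I ∞ W]
  {P : Type} [NormedAddCommGroup P] [NormedSpace ℝ P]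

/-- the representatives of the maps `A (v, G (B (v, ·)))` form a `C^k` family -/
theorem conj_CK {r : ℕ∞} (A B : P × W → W) (hA : ContMDiff (𝓘(ℝ, P).prod I) I ∞ A)
    (hB : ContMDiff (𝓘(ℝ, P).prod I) I ∞ B) (hA0 : ∀ q, A (0, q) = q) (hB0 : ∀ q, B (0, q) = q)
    (F₀ : W ≃ₘ^r⟮I, I⟯ W) {φ ψ : OpenPartialHomeomorph W H}
    (hφ : φ ∈ IsManifold.maximalAtlas I ∞ W) (hψ : ψ ∈ IsManifold.maximalAtlas I ∞ W) {p : W}
    (hp : p ∈ φ.source) (hFp : F₀ p ∈ ψ.source) {k : ℕ} (hk : (k : ℕ∞) ≤ r) :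
    letI := crTopology I (W := W) r
    CK (ι := (W ≃ₘ^r⟮I, I⟯ W) × P) (F₀, 0) (φ.extend I p) k E
      (fun t x => ψ.extend I (A (t.2, t.1 (B (t.2, (φ.extend I).symm x))))) := by
  let _ := crTopology I (W := W) r
  set θ := chartAt H p with hθ
  set η := chartAt H (F₀ p) with hη
  have mθ : θ ∈ IsManifold.maximalAtlas I ∞ W := IsManifold.chart_mem_maximalAtlas p
  have mη : η ∈ IsManifold.maximalAtlas I ∞ W := IsManifold.chart_mem_maximalAtlas (F₀ p)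
  have sθ : p ∈ θ.source := mem_chart_source H p
  have sη : F₀ p ∈ η.source := mem_chart_source H (F₀ p)
  set x₀ : E := φ.extend I p with hx₀
  have hφx : (φ.extend I).symm x₀ = p := Fam2_left hp
  have hφs : ContMDiffAt 𝓘(ℝ, E) I ∞ (φ.extend I).symm x₀ := Fam2_symm hφ hp
  -- the right map
  set C : P × E → E := fun z => θ.extend I (B (z.1, (φ.extend I).symm z.2)) with hC
  have hpair : ContMDiffAt 𝓘(ℝ, P × E) (𝓘(ℝ, P).prod I) ∞
      (fun z : P × E => (z.1, (φ.extend I).symm z.2)) ((0 : P), x₀) := by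
    have h1 : ContMDiffAt 𝓘(ℝ, P × E) 𝓘(ℝ, P) ∞ (fun z : P × E => z.1) ((0 : P), x₀) :=
      contMDiffAt_iff_contDiffAt.2 contDiffAt_fst
    have h2 : ContMDiffAt 𝓘(ℝ, P × E) I ∞ (fun z : P × E => (φ.extend I).symm z.2)
        ((0 : P), x₀) := by
      refine ContMDiffAt.comp ((0 : P), x₀) (g := (φ.extend I).symm) (f := fun z : P × E => z.2)
        hφs ?_
      exact contMDiffAt_iff_contDiffAt.2 contDiffAt_snd
    exact h1.prodMk h2
  have hBs : ContMDiffAt 𝓘(ℝ, P × E) I ∞ (fun z : P × E => B (z.1, (φ.extend I).symm z.2))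
      ((0 : P), x₀) := ContMDiffAt.comp ((0 : P), x₀) (g := B)
        (f := fun z : P × E => (z.1, (φ.extend I).symm z.2)) (hB _) hpair
  have hCs : ContDiffAt ℝ ∞ C ((0 : P), x₀) := by
    rw [← contMDiffAt_iff_contDiffAt]
    refine ContMDiffAt.comp ((0 : P), x₀) (g := θ.extend I) ?_ hBs
    simp only [hφx, hB0]
    exact Fam2_ext mθ sθ
  have hCx : C ((0 : P), x₀) = θ.extend I p := by
    simp only [hC, hφx, hB0]
  -- the left map
  set L : P × E → E := fun z => ψ.extend I (A (z.1, (η.extend I).symm z.2)) with hL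
  have hLs : ContDiffAt ℝ ∞ L ((0 : P), η.extend I (F₀ p)) := by
    have h1 : ContMDiffAt 𝓘(ℝ, P × E) 𝓘(ℝ, P) ∞ (fun z : P × E => z.1)
      ((0 : P), η.extend I (F₀ p)) := contMDiffAt_iff_contDiffAt.2 contDiffAt_fst
    have h2 : ContMDiffAt 𝓘(ℝ, P × E) I ∞ (fun z : P × E => (η.extend I).symm z.2)
        ((0 : P), η.extend I (F₀ p)) := by
      refine ContMDiffAt.comp ((0 : P), η.extend I (F₀ p)) (g := (η.extend I).symm)
        (f := fun z : P × E => z.2) (Fam2_symm mη sη) ?_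
      exact contMDiffAt_iff_contDiffAt.2 contDiffAt_snd
    have h3 : ContMDiffAt 𝓘(ℝ, P × E) I ∞ (fun z : P × E => A (z.1, (η.extend I).symm z.2))
        ((0 : P), η.extend I (F₀ p)) := ContMDiffAt.comp ((0 : P), η.extend I (F₀ p)) (g := A)
          (f := fun z : P × E => (z.1, (η.extend I).symm z.2)) (hA _) (h1.prodMk h2)
    rw [← contMDiffAt_iff_contDiffAt]
    refine ContMDiffAt.comp ((0 : P), η.extend I (F₀ p)) (g := ψ.extend I) ?_ h3
    simp only [Fam2_left sη, hA0]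
    exact Fam2_ext hψ hFp
  -- the family
  have h0 : CK F₀ (θ.extend I p) k E
      (fun (G : W ≃ₘ^r⟮I, I⟯ W) x => η.extend I (G ((θ.extend I).symm x))) :=
    rep_CK F₀ mθ mη sθ sη hk
  have h1 : CK F₀ ((0 : P), x₀) k E
      (fun (G : W ≃ₘ^r⟮I, I⟯ W) (z : P × E) => η.extend I (G ((θ.extend I).symm (C z)))) := by
    rw [← hCx] at h0
    exact CK.comp_right (B := C)
      (u := fun (G : W ≃ₘ^r⟮I, I⟯ W) x => η.extend I (G ((θ.extend I).symm x))) hCs h0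
  have h2 : CK F₀ ((0 : P), x₀) k (P × E)
      (fun (G : W ≃ₘ^r⟮I, I⟯ W) (z : P × E) => (z.1, η.extend I (G ((θ.extend I).symm (C z))))) :=
    (CK.const_family (f := fun z : P × E => z.1) contDiffAt_fst).prodMk h1
  have hL' : ContDiffAt ℝ ∞ L ((fun (G : W ≃ₘ^r⟮I, I⟯ W) (z : P × E) =>
      (z.1, η.extend I (G ((θ.extend I).symm (C z))))) F₀ ((0 : P), x₀)) := by
    simp only [hCx, Fam2_left sθ]
    exact hLs
  have h3 := CK.comp_smooth (t₀ := F₀) (x₀ := ((0 : P), x₀)) (A := L)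
    (u := fun (G : W ≃ₘ^r⟮I, I⟯ W) (z : P × E) =>
      (z.1, η.extend I (G ((θ.extend I).symm (C z))))) hL' h2
  refine (CK.slice h3).congr ?_
  -- equality near the point
  have hc1 : Tendsto (fun z : ((W ≃ₘ^r⟮I, I⟯ W) × P) × E => B (z.1.2, (φ.extend I).symm z.2))
      (𝓝 ((F₀, (0 : P)), x₀)) (𝓝 p) := by
    have h4 : ContinuousAt (fun z : P × E => B (z.1, (φ.extend I).symm z.2)) ((0 : P), x₀) :=
      hBs.continuousAt
    have h5 : Tendsto (fun z : P × E => B (z.1, (φ.extend I).symm z.2)) (𝓝 ((0 : P), x₀))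
        (𝓝 p) := by
      have := h4.tendsto
      simp only [hφx, hB0] at this
      exact this
    have h6 : Tendsto (fun z : ((W ≃ₘ^r⟮I, I⟯ W) × P) × E => (z.1.2, z.2))
        (𝓝 ((F₀, (0 : P)), x₀)) (𝓝 ((0 : P), x₀)) := by
      have : ContinuousAt (fun z : ((W ≃ₘ^r⟮I, I⟯ W) × P) × E => (z.1.2, z.2))
        ((F₀, (0 : P)), x₀) := by fun_prop
      exact this
    exact h5.comp h6
  have hc2 : Tendsto (fun z : ((W ≃ₘ^r⟮I, I⟯ W) × P) × E =>
      z.1.1 (B (z.1.2, (φ.extend I).symm z.2))) (𝓝 ((F₀, (0 : P)), x₀)) (𝓝 (F₀ p)) := by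
    have h4 : Tendsto (fun z : ((W ≃ₘ^r⟮I, I⟯ W) × P) × E =>
        (z.1.1, B (z.1.2, (φ.extend I).symm z.2))) (𝓝 ((F₀, (0 : P)), x₀)) (𝓝 (F₀, p)) := by
      have h5 : ContinuousAt (fun z : ((W ≃ₘ^r⟮I, I⟯ W) × P) × E => z.1.1)
        ((F₀, (0 : P)), x₀) := by fun_prop
      exact h5.tendsto.prodMk_nhds hc1
    exact (eval_continuousAt F₀ p).tendsto.comp h4
  filter_upwards [hc1.eventually (θ.open_source.mem_nhds sθ),
    hc2.eventually (η.open_source.mem_nhds sη)] with z e1 e2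
  simp only [hL, hC]
  rw [Fam2_left e1, Fam2_left e2]

/-- one chart condition is open -/
theorem conj_crNear {r : ℕ∞} (A B : P × W → W) (hA : ContMDiff (𝓘(ℝ, P).prod I) I ∞ A)
    (hB : ContMDiff (𝓘(ℝ, P).prod I) I ∞ B) (hA0 : ∀ q, A (0, q) = q) (hB0 : ∀ q, B (0, q) = q)
    (F₀ F₁ : W ≃ₘ^r⟮I, I⟯ W) (φ ψ : OpenPartialHomeomorph W H)
    (hφ : φ ∈ IsManifold.maximalAtlas I ∞ W) (hψ : ψ ∈ IsManifold.maximalAtlas I ∞ W)
    (K : Set W) (hK : IsCompact K) (hKφ : K ⊆ φ.source) (hfK : F₁ '' K ⊆ ψ.source) (k : ℕ)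
    (hk : (k : ℕ∞) ≤ r) (ε : ℝ) (hF : CrNear I k F₁ φ ψ K ε F₀) :
    letI := crTopology I (W := W) r
    ∀ᶠ t : (W ≃ₘ^r⟮I, I⟯ W) × P in 𝓝 (F₀, 0),
      CrNear I k F₁ φ ψ K ε (fun q => A (t.2, t.1 (B (t.2, q)))) := by
  let _ := crTopology I (W := W) r
  have key : ∀ p ∈ K, ∀ᶠ z : ((W ≃ₘ^r⟮I, I⟯ W) × P) × W in 𝓝 ((F₀, (0 : P)), p),
      A (z.1.2, z.1.1 (B (z.1.2, z.2))) ∈ ψ.source ∧ ∀ j ≤ k,
      ‖iteratedFDeriv ℝ j (ψ.extend I ∘ F₁ ∘ (φ.extend I).symm) (φ.extend I z.2) -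
      iteratedFDeriv ℝ j (ψ.extend I ∘ (fun q => A (z.1.2, z.1.1 (B (z.1.2, q)))) ∘
        (φ.extend I).symm) (φ.extend I z.2)‖ < ε := by
    intro p hp
    have hpφ : p ∈ φ.source := hKφ hp
    have hFp : F₀ p ∈ ψ.source := hF.1 ⟨p, hp, rfl⟩
    have hcB : Tendsto (fun z : ((W ≃ₘ^r⟮I, I⟯ W) × P) × W => B (z.1.2, z.2))
        (𝓝 ((F₀, (0 : P)), p)) (𝓝 p) := by
      have h1 : ContinuousAt (fun z : ((W ≃ₘ^r⟮I, I⟯ W) × P) × W => B (z.1.2, z.2))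
          ((F₀, (0 : P)), p) := by
        refine hB.continuous.continuousAt.comp ?_
        fun_prop
      have h2 := h1.tendsto
      simp only [hB0] at h2
      exact h2
    have hcG : Tendsto (fun z : ((W ≃ₘ^r⟮I, I⟯ W) × P) × W => z.1.1 (B (z.1.2, z.2)))
        (𝓝 ((F₀, (0 : P)), p)) (𝓝 (F₀ p)) := by
      have h1 : ContinuousAt (fun z : ((W ≃ₘ^r⟮I, I⟯ W) × P) × W => z.1.1)
        ((F₀, (0 : P)), p) := by fun_prop
      exact (eval_continuousAt F₀ p).tendsto.comp (h1.tendsto.prodMk_nhds hcB)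
    have hcA : Tendsto (fun z : ((W ≃ₘ^r⟮I, I⟯ W) × P) × W => A (z.1.2, z.1.1 (B (z.1.2, z.2))))
        (𝓝 ((F₀, (0 : P)), p)) (𝓝 (F₀ p)) := by
      have h1 : ContinuousAt (fun z : ((W ≃ₘ^r⟮I, I⟯ W) × P) × W => z.1.2)
        ((F₀, (0 : P)), p) := by fun_prop
      have h2 := (hA.continuous.tendsto ((0 : P), F₀ p)).comp (h1.tendsto.prodMk_nhds hcG)
      rw [hA0] at h2
      exact h2
    have h1 : ∀ᶠ z : ((W ≃ₘ^r⟮I, I⟯ W) × P) × W in 𝓝 ((F₀, (0 : P)), p),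
        A (z.1.2, z.1.1 (B (z.1.2, z.2))) ∈ ψ.source :=
      hcA.eventually (ψ.open_source.mem_nhds hFp)
    have hφc : Tendsto (fun z : ((W ≃ₘ^r⟮I, I⟯ W) × P) × W => (z.1, φ.extend I z.2))
        (𝓝 ((F₀, (0 : P)), p)) (𝓝 ((F₀, (0 : P)), φ.extend I p)) := by
      have h2 : ContinuousAt (fun z : ((W ≃ₘ^r⟮I, I⟯ W) × P) × W => φ.extend I z.2)
          ((F₀, (0 : P)), p) := ContinuousAt.comp (x := ((F₀, (0 : P)), p))
            (f := fun z : ((W ≃ₘ^r⟮I, I⟯ W) × P) × W => z.2)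
            (g := φ.extend I) (φ.continuousAt_extend hpφ) continuousAt_snd
      exact (continuousAt_fst (p := ((F₀, (0 : P)), p))).tendsto.prodMk_nhds h2.tendsto
    have h2 : ∀ j ∈ Finset.range (k + 1), ∀ᶠ z : ((W ≃ₘ^r⟮I, I⟯ W) × P) × W in
        𝓝 ((F₀, (0 : P)), p),
        ‖iteratedFDeriv ℝ j (ψ.extend I ∘ F₁ ∘ (φ.extend I).symm) (φ.extend I z.2) -
        iteratedFDeriv ℝ j (ψ.extend I ∘ (fun q => A (z.1.2, z.1.1 (B (z.1.2, q)))) ∘
          (φ.extend I).symm) (φ.extend I z.2)‖ < ε := by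
      intro j hj
      have hjk : j ≤ k := by simpa [Nat.lt_succ_iff] using hj
      have h3 := (conj_CK A B hA hB hA0 hB0 F₀ hφ hψ hpφ hFp hk).iterated j hjk
      have h4 := h3.tendsto.comp hφc
      have h6 : ContinuousAt (iteratedFDeriv ℝ j
          (ψ.extend I ∘ F₁ ∘ (φ.extend I).symm)) (φ.extend I p) :=
        (rep_contDiffAt F₁ hφ hψ hpφ (hfK ⟨p, hp, rfl⟩) hk).continuousAt_iteratedFDeriv
          (by exact_mod_cast hjk)
      have h7 : Tendsto (fun z : ((W ≃ₘ^r⟮I, I⟯ W) × P) × W => φ.extend I z.2)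
          (𝓝 ((F₀, (0 : P)), p)) (𝓝 (φ.extend I p)) :=
        (continuousAt_snd (p := ((F₀, (0 : P)), φ.extend I p))).tendsto.comp hφc
      have h5 := h6.tendsto.comp h7
      have h8 := (h5.sub h4).norm
      have h9 := hF.2 p hp j hjk
      have hid : (fun q : W => A ((0 : P), F₀ (B ((0 : P), q)))) = F₀ := by
        funext q
        rw [hA0, hB0]
      refine h8.eventually_lt_const ?_
      have h10 : (fun x : E => ψ.extend I (A ((0 : P), F₀ (B ((0 : P), (φ.extend I).symm x))))) =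
          ψ.extend I ∘ F₀ ∘ (φ.extend I).symm := by
        funext x
        simp only [hA0, hB0, Function.comp]
      simp only [h10]
      exact h9
    have h3 := (Filter.eventually_all_finset (Finset.range (k + 1))).2 h2
    filter_upwards [h1, h3] with z hz1 hz2
    exact ⟨hz1, fun j hj => hz2 j (Finset.mem_range.2 (Nat.lt_succ_of_le hj))⟩
  have h := hK.eventually_forall_of_forall_eventually
    (P := fun (t : (W ≃ₘ^r⟮I, I⟯ W) × P) (q : W) => A (t.2, t.1 (B (t.2, q))) ∈ ψ.source ∧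
      ∀ j ≤ k, ‖iteratedFDeriv ℝ j (ψ.extend I ∘ F₁ ∘ (φ.extend I).symm) (φ.extend I q) -
      iteratedFDeriv ℝ j (ψ.extend I ∘ (fun q => A (t.2, t.1 (B (t.2, q)))) ∘
        (φ.extend I).symm) (φ.extend I q)‖ < ε) key
  filter_upwards [h] with t ht
  refine ⟨?_, fun p hp j hj => (ht p hp).2 j hj⟩
  rintro _ ⟨p, hp, rfl⟩
  exact (ht p hp).1

/-- `(G, v) ↦ A (v, G (B (v, ·)))` is continuous at `(F₀, 0)` in the `C^r` topology. -/
theorem conj_mem_nhds {r : ℕ∞} (A B : P × W → W) (hA : ContMDiff (𝓘(ℝ, P).prod I) I ∞ A)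
    (hB : ContMDiff (𝓘(ℝ, P).prod I) I ∞ B) (hA0 : ∀ q, A (0, q) = q) (hB0 : ∀ q, B (0, q) = q)
    (F₀ : W ≃ₘ^r⟮I, I⟯ W) (U : Set (W ≃ₘ^r⟮I, I⟯ W)) (hU : U ∈ @nhds _ (crTopology I r) F₀) :
    letI := crTopology I (W := W) r
    ∀ᶠ t : (W ≃ₘ^r⟮I, I⟯ W) × P in 𝓝 (F₀, 0), ∀ G' : W ≃ₘ^r⟮I, I⟯ W,
      (∀ q, G' q = A (t.2, t.1 (B (t.2, q)))) → G' ∈ U := by
  let _ := crTopology I (W := W) r
  let 𝓖 : Filter (W ≃ₘ^r⟮I, I⟯ W) :=
    { sets := {U | ∀ᶠ t : (W ≃ₘ^r⟮I, I⟯ W) × P in 𝓝 (F₀, 0), ∀ G' : W ≃ₘ^r⟮I, I⟯ W,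
        (∀ q, G' q = A (t.2, t.1 (B (t.2, q)))) → G' ∈ U}
      univ_sets := Filter.Eventually.of_forall fun _ _ _ => Set.mem_univ _
      sets_of_superset := by
        intro U V h1 h2
        have h1' : ∀ᶠ t : (W ≃ₘ^r⟮I, I⟯ W) × P in 𝓝 (F₀, 0), ∀ G' : W ≃ₘ^r⟮I, I⟯ W,
          (∀ q, G' q = A (t.2, t.1 (B (t.2, q)))) → G' ∈ U := h1
        exact h1'.mono fun t ht G hG => h2 (ht G hG)
      inter_sets := by
        intro U V h1 h2
        have h1' : ∀ᶠ t : (W ≃ₘ^r⟮I, I⟯ W) × P in 𝓝 (F₀, 0), ∀ G' : W ≃ₘ^r⟮I, I⟯ W,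
          (∀ q, G' q = A (t.2, t.1 (B (t.2, q)))) → G' ∈ U := h1
        have h2' : ∀ᶠ t : (W ≃ₘ^r⟮I, I⟯ W) × P in 𝓝 (F₀, 0), ∀ G' : W ≃ₘ^r⟮I, I⟯ W,
          (∀ q, G' q = A (t.2, t.1 (B (t.2, q)))) → G' ∈ V := h2
        exact (h1'.and h2').mono fun t ht G hG => ⟨ht.1 G hG, ht.2 G hG⟩ }
  have hle : 𝓖 ≤ @nhds _ (crTopology I r) F₀ := by
    have hn : @nhds _ (crTopology I r) F₀ = _ := TopologicalSpace.nhds_generateFrom
    rw [hn]
    refine le_iInf₂ ?_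
    rintro s ⟨hFs, F₁, φ, ψ, K, ε, k, hk, hφ, hψ, hK, hKφ, hfK, hε, rfl⟩
    rw [Filter.le_principal_iff]
    have hFs' : CrNear I k F₁ φ ψ K ε F₀ := hFs
    have h3 := conj_crNear A B hA hB hA0 hB0 F₀ F₁ φ ψ hφ hψ K hK hKφ hfK k hk ε hFs'
    show ∀ᶠ t : (W ≃ₘ^r⟮I, I⟯ W) × P in 𝓝 (F₀, 0), ∀ G' : W ≃ₘ^r⟮I, I⟯ W,
      (∀ q, G' q = A (t.2, t.1 (B (t.2, q)))) → G' ∈ _
    refine h3.mono fun t ht G' hG' => ?_
    have h4 : (⇑G' : W → W) = fun q => A (t.2, t.1 (B (t.2, q))) := funext hG'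
    show CrNear I k F₁ φ ψ K ε G'
    rw [h4]
    exact ht
  exact hle hU

/-- **Closability passes to limits** of pairs (diffeomorphism, point). -/
theorem closable_of_pairs {r : ℕ∞} (F : W ≃ₘ^r⟮I, I⟯ W) (p : W)
    (h : ∀ U ∈ @nhds _ (crTopology I r) F, ∀ V ∈ 𝓝 p, ∃ G ∈ U, ∃ q ∈ V, Closable I G q) :
    Closable I F p := by
  obtain ⟨T, T', hT, hT', h1, h2, h0, hnear⟩ := ir_translations (I := I) p
  have hle : (r : WithTop ℕ∞) ≤ (∞ : WithTop ℕ∞) := by exact_mod_cast le_top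
  have h0' : ∀ q, T' (0, q) = q := fun q => by
    have := h1 0 q
    rwa [h0] at this
  intro U hU
  let _ : TopologicalSpace (W ≃ₘ^r⟮I, I⟯ W) := crTopology I r
  have h3 := conj_mem_nhds (P := E) T' T hT' hT h0' h0 F U hU
  rw [nhds_prod_eq] at h3
  obtain ⟨U₁, hU₁, V₁, hV₁, h4⟩ := Filter.eventually_prod_iff.1 h3
  obtain ⟨ε, hε, hεV⟩ := Metric.eventually_nhds_iff.1 hV₁
  obtain ⟨U₂, hU₂, hU₂o, hFU₂⟩ := mem_nhds_iff.1 hU₁
  obtain ⟨G, hG, q, ⟨v, hv, hvq⟩, hq⟩ := h U₂ (hU₂o.mem_nhds hFU₂) _ (hnear ε hε)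
  obtain ⟨G', hG', n, hn, hnq⟩ := hq U₂ (hU₂o.mem_nhds hG)
  have hsm : ContMDiff I (𝓘(ℝ, E).prod I) ∞ (fun x : W => (v, x)) :=
    contMDiff_const.prodMk contMDiff_id
  let D : W ≃ₘ^r⟮I, I⟯ W :=
    { toFun := fun x => T (v, x)
      invFun := fun x => T' (v, x)
      left_inv := fun x => h1 v x
      right_inv := fun x => h2 v x
      contMDiff_toFun := (hT.comp hsm).of_le hle
      contMDiff_invFun := (hT'.comp hsm).of_le hle }
  let K : W ≃ₘ^r⟮I, I⟯ W := (D.trans G').trans D.symm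
  have hK : ∀ x, K x = T' (v, G' (T (v, x))) := fun x => rfl
  refine ⟨K, h4 (hU₂ hG') (hεV (by simpa using hv)) K hK, n, hn, ?_⟩
  have hit : ∀ n x, (K : W → W)^[n] x = T' (v, (G' : W → W)^[n] (T (v, x))) := by
    intro n
    induction n with
    | zero => intro x; exact (h1 v x).symm
    | succ n ih =>
      intro x
      rw [Function.iterate_succ_apply', Function.iterate_succ_apply', ih, hK, h2]
  have hvq' : T (v, p) = q := hvq
  rw [hit, hvq', hnq, ← hvq', h1]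

end Pool.Agent.SC
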