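import Pool.Agent.Lib.MP_1e8d1a_an.HM.Defs2
import Pool.Agent.Lib.MP_1e8d1a_an.HM.Main
import Pool.Agent.Lib.MP_1e8d1a_an.HM.Pairs
import Pool.Agent.Lib.MP_1e8d1a_an.LC.F1

/-! The closing lemma for products: both mechanisms, limits of pairs. -/

open scoped ContDiff Manifold Topology

namespace Pool.Agent.HM

open Pool.Agent.SC

variable {E : Type} [NormedAddCommGroup E] [NormedSpace ℝ E] [FiniteDimensional ℝ E]
  {H : Type} [TopologicalSpace H] {I : ModelWithCorners ℝ E H} [I.Boundaryless]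
  {M : Type} [TopologicalSpace M] [T2Space M] [CompactSpace M] [ChartedSpace H M]
  [IsManifold I ∞ M]
  {E' : Type} [NormedAddCommGroup E'] [NormedSpace ℝ E'] [FiniteDimensional ℝ E']
  {H' : Type} [TopologicalSpace H'] {J : ModelWithCorners ℝ E' H'} [J.Boundaryless]
  {N : Type} [TopologicalSpace N] [T2Space N] [CompactSpace N] [ChartedSpace H' N]
  [IsManifold J ∞ N]

theorem prodClosable_of_limit {r : ℕ∞} (f : M ≃ₘ^r⟮I, I⟯ M) (x : M) (g : N ≃ₘ^r⟮J, J⟯ N) (w : N)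
    (h : ∀ U ∈ @nhds _ (crTopology J r) g, ∀ V ∈ 𝓝 w, ∃ g' ∈ U, ∃ w' ∈ V,
      ProdClosable I J r f g' x w') : ProdClosable I J r f g x w := by
  intro F hF
  refine closable_of_pairs F (x, w) fun U hU V hV => ?_
  obtain ⟨A, hA, O, hO, hAO⟩ := mem_nhds_prod_iff.1 hV
  obtain ⟨U', hU', h1⟩ := prod_mem_nhds f g F hF U hU
  obtain ⟨g', hg', w', hw', h2⟩ := h U' hU' O hO
  obtain ⟨F', hF'⟩ := exists_prod_diffeo f g'
  exact ⟨F', h1 g' hg' F' hF', (x, w'), hAO ⟨mem_of_mem_nhds hA, hw'⟩, h2 F' hF'⟩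

theorem prodClosable_good {r : ℕ∞} (hr : 1 ≤ r) (f : M ≃ₘ^r⟮I, I⟯ M) (x : M)
    (g : N ≃ₘ^r⟮J, J⟯ N) (w : N) (h : LimitOfGood J r f x g w) : ProdClosable I J r f g x w := by
  refine prodClosable_of_limit f x g w fun U hU V hV => ?_
  obtain ⟨g', hg', w', hw', m, hm, hx, h1⟩ := h U hU V hV
  refine ⟨g', hg', w', hw', ?_⟩
  rcases h1 with ⟨h2, h3⟩ | h2
  · intro F hF
    exact closable_periodicNear h2 f x g' w' ⟨m, hm, hx, h3⟩ F hF
  · exact closable_homoclinic hr f x g' w' (subset_closure ⟨m, hm, hx, h2⟩)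

/-- If `(x, w)` is recurrent for `f × g` then `x` is nonwandering for all powers of `f`. -/
theorem nonwandering_of_recurrent_prod {r : ℕ∞} (f : M ≃ₘ^r⟮I, I⟯ M) (g : N ≃ₘ^r⟮J, J⟯ N)
    (x : M) (w : N) (h : Recurrent (Equiv.prodCongr f.toEquiv g.toEquiv) (x, w)) (q : ℕ)
    (hq : 0 < q) : NonwanderingPt (f : M → M)^[q] x := by
  have h1 := nonwandering_pow_of_recurrent (f.toHomeomorph.prodCongr g.toHomeomorph) (x, w) h q hq
  intro U hU
  obtain ⟨n, hn, y, hy, hny⟩ := h1 (Prod.fst ⁻¹' U) (continuous_fst.continuousAt hU)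
  refine ⟨n, hn, y.1, hy, ?_⟩
  have hF' : (f.toHomeomorph.prodCongr g.toHomeomorph : M × N → M × N) = Prod.map ⇑f ⇑g := rfl
  rw [hF', ← Function.iterate_mul, ir_iter_prod] at hny
  rw [← Function.iterate_mul]
  exact hny

end Pool.Agent.HM
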