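import Pool.Agent.Lib.MP_1e8d1a_an.SC.CkA

/-! Nondegenerate fixed points persist in families that are continuous in the `C^1` sense. -/

open scoped ContDiff Topology
open Filter

namespace Pool.Agent.SC

variable {ι : Type} [TopologicalSpace ι]

/-- composition of two families -/
theorem CK.comp_one {E F G : Type} [NormedAddCommGroup E] [NormedSpace ℝ E]
    [NormedAddCommGroup F] [NormedSpace ℝ F] [NormedAddCommGroup G] [NormedSpace ℝ G]
    {t₀ : ι} {x₀ : E} {v : ι → F → G} {u : ι → E → F} (hv : CK t₀ (u t₀ x₀) 1 G v)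
    (hu : CK t₀ x₀ 1 F u) : CK t₀ x₀ 1 G (fun t x => v t (u t x)) := by
  have hc : ContinuousAt (fun z : ι × E => (z.1, u z.1 z.2)) (t₀, x₀) :=
    continuousAt_fst.prodMk hu.1
  have hd : ∀ᶠ z : ι × E in 𝓝 (t₀, x₀), DifferentiableAt ℝ (v z.1) (u z.1 z.2) :=
    hc.eventually hv.2.1
  refine ⟨ContinuousAt.comp (g := fun z : ι × F => v z.1 z.2)
    (f := fun z : ι × E => (z.1, u z.1 z.2)) (x := (t₀, x₀)) hv.1 hc, ?_, ?_⟩
  · filter_upwards [hd, hu.2.1] with z hz hz'
    exact hz.comp z.2 hz'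
  · have h1 : ContinuousAt (fun z : ι × E => fderiv ℝ (v z.1) (u z.1 z.2)) (t₀, x₀) :=
      ContinuousAt.comp (g := fun z : ι × F => fderiv ℝ (v z.1) z.2)
        (f := fun z : ι × E => (z.1, u z.1 z.2)) (x := (t₀, x₀)) hv.2.2 hc
    have h2 : ContinuousAt (fun z : ι × E => fderiv ℝ (u z.1) z.2) (t₀, x₀) := hu.2.2
    have h3 : ContinuousAt (fun z : ι × E =>
        (fderiv ℝ (v z.1) (u z.1 z.2)).comp (fderiv ℝ (u z.1) z.2)) (t₀, x₀) := h1.clm_comp h2
    refine ContinuousAt.congr h3 ?_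
    filter_upwards [hd, hu.2.1] with z hz hz'
    exact (fderiv_comp (g := v z.1) z.2 hz hz').symm

/-- **Nondegenerate fixed points persist.** -/
theorem CK.fixed {E : Type} [NormedAddCommGroup E] [NormedSpace ℝ E] [CompleteSpace E] {t₀ : ι}
    {x₀ : E} {u : ι → E → E} (hu : CK t₀ x₀ 1 E u) (hfix : u t₀ x₀ = x₀) (L : E ≃L[ℝ] E)
    (hL : (L : E →L[ℝ] E) = ContinuousLinearMap.id ℝ E - fderiv ℝ (u t₀) x₀) {V : Set E}
    (hV : V ∈ 𝓝 x₀) : ∀ᶠ t in 𝓝 t₀, ∃ x ∈ V, u t x = x := by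
  -- the Newton map
  obtain ⟨hc, hd, hd'⟩ := hu
  have hd'' : ContinuousAt (fun z : ι × E => fderiv ℝ (u z.1) z.2) (t₀, x₀) := hd'
  set S : E →L[ℝ] E := (L.symm : E →L[ℝ] E) with hS
  let N : ι → E → E := fun t x => x - S (x - u t x)
  have hN : ContinuousAt (fun z : ι × E =>
      ContinuousLinearMap.id ℝ E - S.comp (ContinuousLinearMap.id ℝ E - fderiv ℝ (u z.1) z.2))
      (t₀, x₀) := by
    refine continuousAt_const.sub (ContinuousAt.clm_comp continuousAt_const ?_)
    exact continuousAt_const.sub hd''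
  have hN0 : ContinuousLinearMap.id ℝ E -
      S.comp (ContinuousLinearMap.id ℝ E - fderiv ℝ (u t₀) x₀) = 0 := by
    rw [← hL]
    ext x
    simp [hS]
  have h1 : ∀ᶠ z : ι × E in 𝓝 (t₀, x₀), ‖ContinuousLinearMap.id ℝ E -
      S.comp (ContinuousLinearMap.id ℝ E - fderiv ℝ (u z.1) z.2)‖ < 1 / 2 := by
    have h2 := hN.norm
    have h3 : ‖ContinuousLinearMap.id ℝ E -
      S.comp (ContinuousLinearMap.id ℝ E - fderiv ℝ (u t₀) x₀)‖ < 1 / 2 := by
      rw [hN0, norm_zero]
      norm_num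
    exact h2.eventually_lt_const h3
  have h2 := (h1.and hd)
  rw [nhds_prod_eq] at h2
  obtain ⟨T, hT, V₁, hV₁, hTV⟩ := Filter.eventually_prod_iff.1 h2
  obtain ⟨ρ, hρ, hρV⟩ := Metric.mem_nhds_iff.1 (Filter.inter_mem hV hV₁)
  -- the displacement of the centre
  have h3 : ∀ᶠ t in 𝓝 t₀, ‖N t x₀ - x₀‖ < ρ / 4 := by
    have h4 : ContinuousAt (fun t : ι => N t x₀ - x₀) t₀ := by
      have h5 : ContinuousAt (fun t : ι => u t x₀) t₀ :=
        ContinuousAt.comp (g := fun z : ι × E => u z.1 z.2) (f := fun t : ι => (t, x₀)) (x := t₀)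
          hc (continuousAt_id.prodMk continuousAt_const)
      have h6 : ContinuousAt (fun t : ι => S (x₀ - u t x₀)) t₀ :=
        S.continuous.continuousAt.comp (continuousAt_const.sub h5)
      exact (continuousAt_const.sub h6).sub continuousAt_const
    have h5 : ‖N t₀ x₀ - x₀‖ < ρ / 4 := by
      show ‖x₀ - S (x₀ - u t₀ x₀) - x₀‖ < ρ / 4
      rw [hfix, sub_self, map_zero, sub_zero, sub_self, norm_zero]
      positivity
    exact h4.norm.eventually_lt_const h5
  filter_upwards [hT, h3] with t ht htc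
  -- contraction on the closed ball of radius `ρ / 2`
  have hlip : ∀ x ∈ Metric.closedBall x₀ (ρ / 2), ∀ y ∈ Metric.closedBall x₀ (ρ / 2),
      ‖N t y - N t x‖ ≤ 1 / 2 * ‖y - x‖ := by
    intro x hx y hy
    refine (convex_closedBall x₀ (ρ / 2)).norm_image_sub_le_of_norm_hasFDerivWithin_le
      (f := N t) (f' := fun z => ContinuousLinearMap.id ℝ E -
        S.comp (ContinuousLinearMap.id ℝ E - fderiv ℝ (u t) z)) ?_ ?_ hx hy
    · intro z hz
      have hz' : z ∈ V ∩ V₁ := by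
        apply hρV
        have h6 : dist z x₀ ≤ ρ / 2 := hz
        rw [Metric.mem_ball]
        linarith
      have h7 := (hTV ht hz'.2).2
      have h8 : HasFDerivAt (u t) (fderiv ℝ (u t) z) z := h7.hasFDerivAt
      exact ((hasFDerivAt_id z).sub (S.hasFDerivAt.comp z ((hasFDerivAt_id z).sub
        h8))).hasFDerivWithinAt
    · intro z hz
      have hz' : z ∈ V ∩ V₁ := by
        apply hρV
        have h6 : dist z x₀ ≤ ρ / 2 := hz
        rw [Metric.mem_ball]
        linarith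
      exact (hTV ht hz'.2).1.le
  have hmaps : Set.MapsTo (N t) (Metric.closedBall x₀ (ρ / 2)) (Metric.closedBall x₀ (ρ / 2)) := by
    intro x hx
    have h6 := hlip x₀ (Metric.mem_closedBall_self (by positivity)) x hx
    rw [Metric.mem_closedBall, dist_eq_norm] at hx ⊢
    have h7 : N t x - x₀ = (N t x - N t x₀) + (N t x₀ - x₀) := by abel
    rw [h7]
    refine (norm_add_le _ _).trans ?_
    linarith
  have hcomp : IsComplete (Metric.closedBall x₀ (ρ / 2)) := Metric.isClosed_closedBall.isComplete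
  have hcontr : ContractingWith (1 / 2) (hmaps.restrict (N t) _ _) := by
    refine ⟨by norm_num, LipschitzWith.of_dist_le_mul ?_⟩
    rintro ⟨x, hx⟩ ⟨y, hy⟩
    have h6 := hlip y hy x hx
    rw [Subtype.dist_eq, Subtype.dist_eq, dist_eq_norm, dist_eq_norm]
    show ‖N t x - N t y‖ ≤ _
    simpa using h6
  obtain ⟨x, hx, hxf, -⟩ := hcontr.exists_fixedPoint' hcomp hmaps
    (Metric.mem_closedBall_self (x := x₀) (ε := ρ / 2) (by positivity)) (edist_ne_top _ _)
  have hxV : x ∈ V := by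
    apply (hρV ?_).1
    have h6 : dist x x₀ ≤ ρ / 2 := hx
    rw [Metric.mem_ball]
    linarith
  refine ⟨x, hxV, ?_⟩
  have h6 : x - S (x - u t x) = x := hxf
  have h7 : S (x - u t x) = 0 := by
    have := sub_eq_self.1 h6
    exact this
  have h8 : x - u t x = 0 := by
    have := congrArg L h7
    simpa [hS] using this
  exact (sub_eq_zero.1 h8).symm

end Pool.Agent.SC
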