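import Pool.Agent.Lib.MP_1e8d1a_an.HM.GenA
import Pool.Agent.Lib.MP_1e8d1a_an.LC.Prod0

/-! Periodic points of nearby diffeomorphisms: iterates depend continuously on the map. -/

open scoped ContDiff Manifold Topology
open Filter

namespace Pool.Agent.SC

variable {E : Type} [NormedAddCommGroup E] [NormedSpace ℝ E] [FiniteDimensional ℝ E]
  {H : Type} [TopologicalSpace H] {I : ModelWithCorners ℝ E H} [I.Boundaryless]
  {W : Type} [TopologicalSpace W] [T2Space W] [CompactSpace W] [ChartedSpace H W]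
  [IsManifold I ∞ W]

/-- iterates are jointly continuous -/
theorem iter_tendsto {r : ℕ∞} (G₀ : W ≃ₘ^r⟮I, I⟯ W) (z₀ : W) (n : ℕ) :
    letI := crTopology I (W := W) r
    Tendsto (fun z : (W ≃ₘ^r⟮I, I⟯ W) × W => (z.1 : W → W)^[n] z.2) (𝓝 (G₀, z₀))
      (𝓝 ((G₀ : W → W)^[n] z₀)) := by
  let _ := crTopology I (W := W) r
  induction n with
  | zero => exact (continuousAt_snd (p := (G₀, z₀)))
  | succ n ih =>
    have h1 : Tendsto (fun z : (W ≃ₘ^r⟮I, I⟯ W) × W => (z.1, (z.1 : W → W)^[n] z.2)) (𝓝 (G₀, z₀))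
        (𝓝 (G₀, (G₀ : W → W)^[n] z₀)) := (continuousAt_fst (p := (G₀, z₀))).tendsto.prodMk_nhds ih
    have h2 := (eval_continuousAt G₀ ((G₀ : W → W)^[n] z₀)).tendsto.comp h1
    simp only [Function.iterate_succ_apply']
    exact h2

/-- the local representatives of the iterates form a `C^1` family -/
theorem iter_CK {r : ℕ∞} (hr : 1 ≤ r) (G₀ : W ≃ₘ^r⟮I, I⟯ W) {θ : OpenPartialHomeomorph W H}
    (hθ : θ ∈ IsManifold.maximalAtlas I ∞ W) {z₀ : W} (hz : z₀ ∈ θ.source) (n : ℕ) :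
    letI := crTopology I (W := W) r
    ∀ {η : OpenPartialHomeomorph W H}, η ∈ IsManifold.maximalAtlas I ∞ W →
      (G₀ : W → W)^[n] z₀ ∈ η.source →
      CK G₀ (θ.extend I z₀) 1 E
        (fun (G : W ≃ₘ^r⟮I, I⟯ W) x => η.extend I ((G : W → W)^[n] ((θ.extend I).symm x))) := by
  let _ := crTopology I (W := W) r
  have hsymm : Tendsto (fun z : (W ≃ₘ^r⟮I, I⟯ W) × E => (z.1, (θ.extend I).symm z.2))
      (𝓝 (G₀, θ.extend I z₀)) (𝓝 (G₀, z₀)) := by
    have h1 : ContinuousAt (θ.extend I).symm (θ.extend I z₀) := (Fam2_symm hθ hz).continuousAt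
    have h2 : Tendsto (θ.extend I).symm (𝓝 (θ.extend I z₀)) (𝓝 z₀) := by
      have := h1.tendsto
      rwa [Fam2_left hz] at this
    exact (continuousAt_fst (p := (G₀, θ.extend I z₀))).tendsto.prodMk_nhds
      (h2.comp (continuousAt_snd (p := (G₀, θ.extend I z₀))))
  induction n with
  | zero =>
    intro η hη hηz
    refine CK.const_family (f := fun x : E => η.extend I ((θ.extend I).symm x)) ?_
    have h1 : ContMDiffAt 𝓘(ℝ, E) 𝓘(ℝ, E) ∞ (fun x => η.extend I ((θ.extend I).symm x))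
        (θ.extend I z₀) := by
      refine ContMDiffAt.comp (θ.extend I z₀) (g := η.extend I) ?_ (Fam2_symm hθ hz)
      rw [Fam2_left hz]
      exact Fam2_ext hη hηz
    exact (contMDiffAt_iff_contDiffAt.1 h1).of_le (by exact_mod_cast le_top)
  | succ n ih =>
    intro η hη hηz
    set z₁ := (G₀ : W → W)^[n] z₀ with hz₁
    set η' := chartAt H z₁ with hη'
    have mη' : η' ∈ IsManifold.maximalAtlas I ∞ W := IsManifold.chart_mem_maximalAtlas z₁
    have sη' : z₁ ∈ η'.source := mem_chart_source H z₁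
    have h1 := ih mη' sη'
    have hG : G₀ z₁ ∈ η.source := by
      rw [Function.iterate_succ_apply'] at hηz
      exact hηz
    have h2 : CK G₀ (η'.extend I z₁) 1 E
        (fun (G : W ≃ₘ^r⟮I, I⟯ W) x => η.extend I (G ((η'.extend I).symm x))) :=
      rep_CK G₀ mη' hη sη' hG (by exact_mod_cast hr)
    have h3 : CK G₀ ((fun (G : W ≃ₘ^r⟮I, I⟯ W) x =>
        η'.extend I ((G : W → W)^[n] ((θ.extend I).symm x))) G₀ (θ.extend I z₀)) 1 E
        (fun (G : W ≃ₘ^r⟮I, I⟯ W) x => η.extend I (G ((η'.extend I).symm x))) := by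
      simp only [Fam2_left hz]
      exact h2
    refine (CK.comp_one h3 h1).congr ?_
    have h4 : Tendsto (fun z : (W ≃ₘ^r⟮I, I⟯ W) × E =>
        (z.1 : W → W)^[n] ((θ.extend I).symm z.2)) (𝓝 (G₀, θ.extend I z₀)) (𝓝 z₁) :=
      (iter_tendsto G₀ z₀ n).comp hsymm
    filter_upwards [h4.eventually (η'.open_source.mem_nhds sη')] with z hz'
    simp only [Function.iterate_succ_apply']
    rw [Fam2_left hz']

/-- a nondegenerate periodic point persists -/
theorem persist {r : ℕ∞} (hr : 1 ≤ r) (G₀ : W ≃ₘ^r⟮I, I⟯ W) (p : W) (n : ℕ)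
    (hp : (G₀ : W → W)^[n] p = p)
    (hL : ∀ x : E, fderiv ℝ (fun y => extChartAt I p ((G₀ : W → W)^[n] ((extChartAt I p).symm y)))
      (extChartAt I p p) x = x → x = 0) (O : Set W) (hO : O ∈ 𝓝 p) :
    letI := crTopology I (W := W) r
    ∀ᶠ G : W ≃ₘ^r⟮I, I⟯ W in 𝓝 G₀, ∃ q ∈ O, (G : W → W)^[n] q = q := by
  let _ := crTopology I (W := W) r
  have mθ : chartAt H p ∈ IsManifold.maximalAtlas I ∞ W := IsManifold.chart_mem_maximalAtlas p
  have sθ : p ∈ (chartAt H p).source := mem_chart_source H p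
  have h1 : CK G₀ (extChartAt I p p) 1 E (fun (G : W ≃ₘ^r⟮I, I⟯ W) x =>
      extChartAt I p ((G : W → W)^[n] ((extChartAt I p).symm x))) := by
    have := iter_CK hr G₀ mθ sθ n (η := chartAt H p) mθ (by rw [hp]; exact sθ)
    exact this
  set A := fderiv ℝ (fun y => extChartAt I p ((G₀ : W → W)^[n] ((extChartAt I p).symm y)))
      (extChartAt I p p) with hA
  have hinj : Function.Injective (ContinuousLinearMap.id ℝ E - A) := by
    rw [injective_iff_map_eq_zero]
    intro x hx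
    have h2 : x - A x = 0 := hx
    exact hL x (sub_eq_zero.1 h2).symm
  have hcomp : CompleteSpace E := FiniteDimensional.complete ℝ E
  let L₀ : E ≃ₗ[ℝ] E := LinearEquiv.ofInjectiveEndo
    ((ContinuousLinearMap.id ℝ E - A : E →L[ℝ] E) : E →ₗ[ℝ] E) hinj
  let L : E ≃L[ℝ] E := L₀.toContinuousLinearEquiv
  have hLe : (L : E →L[ℝ] E) = ContinuousLinearMap.id ℝ E - A := by
    ext x
    rfl
  have hfix : (fun (G : W ≃ₘ^r⟮I, I⟯ W) x =>
      extChartAt I p ((G : W → W)^[n] ((extChartAt I p).symm x))) G₀ (extChartAt I p p) =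
      extChartAt I p p := by
    simp only [extChartAt_to_inv, hp]
  -- a neighbourhood of `(G₀, e p)` where everything is in the chart
  have hsymm : Tendsto (fun z : (W ≃ₘ^r⟮I, I⟯ W) × E => (z.1, (extChartAt I p).symm z.2))
      (𝓝 (G₀, extChartAt I p p)) (𝓝 (G₀, p)) := by
    have h2 : Tendsto (extChartAt I p).symm (𝓝 (extChartAt I p p)) (𝓝 p) := by
      have := (continuousAt_extChartAt_symm (I := I) p).tendsto
      rwa [extChartAt_to_inv] at this
    exact (continuousAt_fst (p := (G₀, extChartAt I p p))).tendsto.prodMk_nhds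
      (h2.comp (continuousAt_snd (p := (G₀, extChartAt I p p))))
  have h2 : ∀ᶠ z : (W ≃ₘ^r⟮I, I⟯ W) × E in 𝓝 (G₀, extChartAt I p p),
      (z.1 : W → W)^[n] ((extChartAt I p).symm z.2) ∈ (extChartAt I p).source := by
    have h3 := (iter_tendsto G₀ p n).comp hsymm
    rw [hp] at h3
    exact h3.eventually (extChartAt_source_mem_nhds (I := I) p)
  have h3 : ∀ᶠ z : (W ≃ₘ^r⟮I, I⟯ W) × E in 𝓝 (G₀, extChartAt I p p),
      z.2 ∈ (extChartAt I p).target ∧ (extChartAt I p).symm z.2 ∈ O := by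
    have h4 : ∀ᶠ y in 𝓝 (extChartAt I p p), y ∈ (extChartAt I p).target ∧
        (extChartAt I p).symm y ∈ O :=
      Filter.Eventually.and (extChartAt_target_mem_nhds (I := I) p)
        (extChartAt_preimage_mem_nhds hO)
    exact (continuousAt_snd (p := (G₀, extChartAt I p p))).eventually h4
  have h4 := h2.and h3
  rw [nhds_prod_eq] at h4
  obtain ⟨T, hT, V, hV, hTV⟩ := Filter.eventually_prod_iff.1 h4
  filter_upwards [CK.fixed h1 hfix L hLe hV, hT] with G ⟨x, hxV, hx⟩ hGT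
  obtain ⟨h5, h6, h7⟩ := hTV hGT hxV
  refine ⟨(extChartAt I p).symm x, h7, ?_⟩
  have h8 := congrArg (extChartAt I p).symm hx
  rwa [(extChartAt I p).left_inv h5] at h8

end Pool.Agent.SC
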