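import Pool.Agent.Lib.MP_1e8d1a_an.HM.Man

/-! Isolated cycles at a homoclinic point. -/

open scoped Topology

namespace Pool.Agent.HM

/-- `g` has cycles at `q`: `q` has a neighbourhood `J` such that for every neighbourhood `U` of `q`
and all large `n` some orbit starts in `U`, is in `U` at the time `m n` and is outside `J` at all
times strictly between. -/
def CyclesAt {N : Type} [TopologicalSpace N] (g : N → N) (m : ℕ) (q : N) : Prop :=
  ∃ J ∈ 𝓝 q, ∀ U ∈ 𝓝 q, ∃ n₀ : ℕ, ∀ n ≥ n₀, ∃ y ∈ U, g^[m * n] y ∈ U ∧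
    ∀ i, 0 < i → i < m * n → g^[i] y ∉ J

section

variable {N : Type}

theorem iter_symm (g : N ≃ N) (i : ℕ) (x : N) : (⇑g)^[i] ((⇑g.symm)^[i] x) = x :=
  Function.LeftInverse.iterate (f := ⇑g.symm) (g := ⇑g) g.apply_symm_apply i x

theorem symm_iter (g : N ≃ N) (i : ℕ) (x : N) : (⇑g.symm)^[i] ((⇑g)^[i] x) = x :=
  Function.LeftInverse.iterate (f := ⇑g) (g := ⇑g.symm) g.symm_apply_apply i x

/-- `g^i (g^{-(i+j)} x) = g^{-j} x` -/
theorem iter_symm_add (g : N ≃ N) (i j : ℕ) (x : N) :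
    (⇑g)^[i] ((⇑g.symm)^[i + j] x) = (⇑g.symm)^[j] x := by
  rw [Function.iterate_add_apply, iter_symm]

theorem symm_iter_add (g : N ≃ N) (i j : ℕ) (x : N) :
    (⇑g.symm)^[i] ((⇑g)^[i + j] x) = (⇑g)^[j] x := by
  rw [Function.iterate_add_apply, symm_iter]

end

variable {N : Type} [TopologicalSpace N] [T2Space N]

theorem not_periodic (g : N → N) {m : ℕ} {p q : N} (hqp : q ≠ p)
    (h : Filter.Tendsto (fun j : ℕ => g^[m * j] q) Filter.atTop (𝓝 p)) (i : ℕ) (hi : 0 < i) :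
    g^[i] q ≠ q := by
  intro hcon
  have h1 : ∀ k, g^[i * k] q = q := fun k => Function.IsPeriodicPt.mul_const (m := i) hcon k
  have h2 : Filter.Tendsto (fun k : ℕ => g^[m * (i * k)] q) Filter.atTop (𝓝 p) :=
    h.comp (Filter.tendsto_id.const_mul_atTop' hi)
  have h3 : ∀ k : ℕ, g^[m * (i * k)] q = q := by
    intro k
    have := h1 (m * k)
    rwa [show m * (i * k) = i * (m * k) by ring]
  simp only [h3] at h2
  exact hqp (tendsto_nhds_unique tendsto_const_nhds h2)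

theorem not_orbit (g : N → N) {m : ℕ} {p q : N} (hp : g^[m] p = p) (hqp : q ≠ p)
    (h : Filter.Tendsto (fun j : ℕ => g^[m * j] q) Filter.atTop (𝓝 p)) (l : ℕ) : g^[l] p ≠ q := by
  intro hcon
  have h1 : ∀ k, g^[m * k] p = p := fun k => Function.IsPeriodicPt.mul_const (m := m) hp k
  have h3 : ∀ k : ℕ, g^[m * k] q = q := by
    intro k
    rw [← hcon, ← Function.iterate_add_apply, Nat.add_comm, Function.iterate_add_apply, h1]
  simp only [h3] at h
  exact hqp (tendsto_nhds_unique tendsto_const_nhds h)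

/-- separation of finitely many points from `q` -/
theorem sep_fin (x : ℕ → N) (q : N) (L : ℕ) (h : ∀ i, 0 < i → i < L → x i ≠ q) :
    ∃ J ∈ 𝓝 q, ∃ K : ℕ → Set N, ∀ i, 0 < i → i < L → K i ∈ 𝓝 (x i) ∧ ∀ z ∈ K i, z ∉ J := by
  induction L with
  | zero => exact ⟨Set.univ, Filter.univ_mem, fun _ => Set.univ, fun i _ h2 => absurd h2 (by omega)⟩
  | succ L ih =>
    obtain ⟨J, hJ, K, hK⟩ := ih (fun i h1 h2 => h i h1 (by omega))
    rcases Nat.eq_zero_or_pos L with hL | hL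
    · exact ⟨J, hJ, K, fun i h1 h2 => by omega⟩
    obtain ⟨A, B, hA, hB, hxA, hqB, hd⟩ := t2_separation (h L hL (Nat.lt_succ_self L))
    refine ⟨J ∩ B, Filter.inter_mem hJ (hB.mem_nhds hqB), Function.update K L A,
      fun i h1 h2 => ?_⟩
    rcases Nat.lt_succ_iff_lt_or_eq.1 h2 with h3 | h3
    · rw [Function.update_of_ne (by omega)]
      obtain ⟨h4, h5⟩ := hK i h1 h3
      exact ⟨h4, fun z hz hzJ => h5 z hz hzJ.1⟩
    · subst h3
      rw [Function.update_self]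
      exact ⟨hA.mem_nhds hxA, fun z hz hzJ => Set.disjoint_left.1 hd hz hzJ.2⟩

/-- a finite intersection of neighbourhoods -/
theorem inter_fin {X : Type} [TopologicalSpace X] (x : X) (L : ℕ) (S : ℕ → Set X)
    (h : ∀ i, 0 < i → i < L → S i ∈ 𝓝 x) : {z | ∀ i, 0 < i → i < L → z ∈ S i} ∈ 𝓝 x := by
  have h1 : ∀ᶠ z in 𝓝 x, ∀ i ∈ Finset.Ioo 0 L, z ∈ S i := by
    rw [Filter.eventually_all_finset]
    intro i hi
    obtain ⟨h2, h3⟩ := Finset.mem_Ioo.1 hi
    exact h i h2 h3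
  filter_upwards [h1] with z hz i h2 h3
  exact hz i (Finset.mem_Ioo.2 ⟨h2, h3⟩)

/-- **Cycles at a homoclinic point.** -/
theorem cyclesAt_of_homoclinic (g : N ≃ₜ N) {m : ℕ} (hm : 0 < m) {p q : N}
    (hp : (⇑g)^[m] p = p) (hlink : LinkAt (⇑g)^[m] p) (hqp : q ≠ p)
    (hf : Filter.Tendsto (fun j : ℕ => (⇑g)^[m * j] q) Filter.atTop (𝓝 p))
    (hb : Filter.Tendsto (fun j : ℕ => (⇑g.symm)^[m * j] q) Filter.atTop (𝓝 p)) :
    CyclesAt ⇑g m q := by
  have hper := not_periodic (⇑g) hqp hf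
  have horb := not_orbit (⇑g) hp hqp hf
  have hcg : ∀ i, Continuous (⇑g)^[i] := fun i => g.continuous.iterate i
  have hcs : ∀ i, Continuous (⇑g.symm)^[i] := fun i => g.symm.continuous.iterate i
  have IS : ∀ i x, (⇑g)^[i] ((⇑g.symm)^[i] x) = x := fun i x => iter_symm g.toEquiv i x
  have SI : ∀ i x, (⇑g.symm)^[i] ((⇑g)^[i] x) = x := fun i x => symm_iter g.toEquiv i x
  -- the neighbourhood `V` of `p`
  obtain ⟨J₀, hJ₀, K₀, hK₀⟩ := sep_fin (fun l => (⇑g)^[l - 1] p) q (m + 1)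
    (fun i _ _ => horb _)
  have hV : {z | ∀ l, 0 < l → l < m + 1 → z ∈ (⇑g)^[l - 1] ⁻¹' (K₀ l)} ∈ 𝓝 p := by
    refine inter_fin p (m + 1) (fun l => (⇑g)^[l - 1] ⁻¹' (K₀ l)) fun l h1 h2 => ?_
    exact (hcg (l - 1)).continuousAt (hK₀ l h1 h2).1
  obtain ⟨V', hV', hlink'⟩ := hlink _ hV
  obtain ⟨k₀, hk₀⟩ := Filter.eventually_atTop.1 ((hf.eventually hV').and (hb.eventually hV'))
  set M := m * k₀ with hM
  -- the points between `q` and the neighbourhood of `p`
  obtain ⟨J₁, hJ₁, K₁, hK₁⟩ := sep_fin (fun i => (⇑g)^[i] q) q M (fun i h1 _ => hper i h1)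
  obtain ⟨J₂, hJ₂, K₂, hK₂⟩ := sep_fin (fun i => (⇑g.symm)^[M - i] q) q M (fun i h1 h2 hcon =>
    hper (M - i) (by omega) (by rw [← hcon, IS, hcon]))
  refine ⟨J₀ ∩ (J₁ ∩ J₂), Filter.inter_mem hJ₀ (Filter.inter_mem hJ₁ hJ₂), fun U hU => ?_⟩
  set a : ℕ → N := fun j => (⇑g)^[m * (k₀ + j)] q with ha
  set b : ℕ → N := fun j => (⇑g.symm)^[m * (k₀ + j)] q with hb'
  have ha0 : a 0 = (⇑g)^[M] q := by rw [ha, hM]; rfl
  have hb0 : b 0 = (⇑g.symm)^[M] q := by rw [hb', hM]; rfl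
  have hA : ((⇑g.symm)^[M] ⁻¹' U) ∩ {z | ∀ i, 0 < i → i < M → z ∈ (⇑g.symm)^[M - i] ⁻¹' (K₁ i)} ∈
      𝓝 (a 0) := by
    rw [ha0]
    refine Filter.inter_mem ((hcs M).continuousAt ?_) (inter_fin _ M _ fun i h1 h2 =>
      (hcs (M - i)).continuousAt ?_)
    · rw [SI]
      exact hU
    · have h3 : (⇑g.symm)^[M - i] ((⇑g)^[M] q) = (⇑g)^[i] q := by
        have := symm_iter_add g.toEquiv (M - i) i q
        rw [show M - i + i = M by omega] at this
        exact this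
      rw [h3]
      exact (hK₁ i h1 h2).1
  have hB : ((⇑g)^[M] ⁻¹' U) ∩ {z | ∀ i, 0 < i → i < M → z ∈ (⇑g)^[i] ⁻¹' (K₂ i)} ∈ 𝓝 (b 0) := by
    rw [hb0]
    refine Filter.inter_mem ((hcg M).continuousAt ?_) (inter_fin _ M _ fun i h1 h2 =>
      (hcg i).continuousAt ?_)
    · rw [IS]
      exact hU
    · have h3 : (⇑g)^[i] ((⇑g.symm)^[M] q) = (⇑g.symm)^[M - i] q := by
        have := iter_symm_add g.toEquiv i (M - i) q
        rw [show i + (M - i) = M by omega] at this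
        exact this
      rw [h3]
      exact (hK₂ i h1 h2).1
  obtain ⟨n₀, hn₀⟩ := hlink' a b
    (fun j => by
      show (⇑g)^[m * (k₀ + (j + 1))] q = (⇑g)^[m] ((⇑g)^[m * (k₀ + j)] q)
      rw [← Function.iterate_add_apply]
      congr 2
      ring)
    (fun j => by
      show (⇑g)^[m] ((⇑g.symm)^[m * (k₀ + (j + 1))] q) = (⇑g.symm)^[m * (k₀ + j)] q
      have := iter_symm_add g.toEquiv m (m * (k₀ + j)) q
      rw [show m + m * (k₀ + j) = m * (k₀ + (j + 1)) by ring] at this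
      exact this)
    (fun j => (hk₀ (k₀ + j) (by omega)).1) (fun j => (hk₀ (k₀ + j) (by omega)).2)
    (by
      have h1 : Filter.Tendsto (fun j : ℕ => k₀ + j) Filter.atTop Filter.atTop := by
        simpa [Nat.add_comm] using Filter.tendsto_add_atTop_nat k₀
      exact hf.comp h1)
    (by
      have h1 : Filter.Tendsto (fun j : ℕ => k₀ + j) Filter.atTop Filter.atTop := by
        simpa [Nat.add_comm] using Filter.tendsto_add_atTop_nat k₀
      exact hb.comp h1) _ hA _ hB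
  refine ⟨n₀ + 2 * k₀, fun n hn => ?_⟩
  obtain ⟨n', rfl⟩ : ∃ n', n = n' + 2 * k₀ := ⟨n - 2 * k₀, by omega⟩
  obtain ⟨z, ⟨hzU, hzK⟩, ⟨hzU', hzK'⟩, hzV⟩ := hn₀ n' (by omega)
  have hitm : ∀ j, ((⇑g)^[m])^[j] z = (⇑g)^[m * j] z := fun j => by rw [← Function.iterate_mul]
  refine ⟨(⇑g.symm)^[M] z, hzU, ?_, fun i hi hiN => ?_⟩
  · have h1 : m * (n' + 2 * k₀) = M + m * n' + M := by rw [hM]; ring
    rw [h1, Function.iterate_add_apply, IS, Function.iterate_add_apply, ← hitm]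
    exact hzU'
  · have h1 : m * (n' + 2 * k₀) = M + m * n' + M := by rw [hM]; ring
    rw [h1] at hiN
    intro hJ
    rcases lt_or_ge i M with h2 | h2
    · -- the first part of the orbit
      have h3 : (⇑g)^[i] ((⇑g.symm)^[M] z) = (⇑g.symm)^[M - i] z := by
        have := iter_symm_add g.toEquiv i (M - i) z
        rw [show i + (M - i) = M by omega] at this
        exact this
      rw [h3] at hJ
      exact (hK₁ i hi h2).2 _ (hzK i hi h2) hJ.2.1
    · obtain ⟨s, rfl⟩ : ∃ s, i = s + M := ⟨i - M, by omega⟩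
      rw [Function.iterate_add_apply, IS] at hJ
      rcases lt_or_ge (m * n') s with h3 | h3
      · -- the last part
        obtain ⟨t, rfl⟩ : ∃ t, s = t + m * n' := ⟨s - m * n', by omega⟩
        rw [Function.iterate_add_apply, ← hitm] at hJ
        exact (hK₂ t (by omega) (by omega)).2 _ (hzK' t (by omega) (by omega)) hJ.2.2
      · -- the middle part
        have h4 : s = s % m + m * (s / m) := (Nat.mod_add_div s m).symm
        have h5 : s % m < m := Nat.mod_lt s hm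
        have h6 : s / m ≤ n' := by
          apply Nat.div_le_of_le_mul
          exact h3
        rw [h4, Function.iterate_add_apply, ← hitm] at hJ
        have h7 := hzV (s / m) h6 (s % m + 1) (by omega) (by omega)
        exact (hK₀ (s % m + 1) (by omega) (by omega)).2 _ h7 hJ.1

end Pool.Agent.HM
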