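import Pool.Agent.Lib.MP_1e8d1a_an.HM.GenB
import Pool.Agent.Lib.MP_1e8d1a_an.HM.Top
import Pool.Agent.Lib.MP_1e8d1a_an.LC.B1
import Pool.Agent.Lib.MP_1e8d1a_an.SB.Ds3b
import Pool.Agent.Lib.MP_1e8d1a_an.SC.Fam3

/-! A periodic point becomes nondegenerate by a small perturbation. -/

open scoped ContDiff Manifold Topology
open Filter

namespace Pool.Agent.SC

section

variable {E : Type} [NormedAddCommGroup E] [NormedSpace ℝ E] [FiniteDimensional ℝ E]

/-- a contraction near `0`, cut off -/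
theorem exists_cut_dilation (δ : ℝ) (hδ : 0 < δ) : ∃ S : ℝ × E → E, ContDiff ℝ ∞ S ∧
    (∀ s y, δ ≤ ‖y‖ → S (s, y) = y) ∧ (∀ s : ℝ, |s| < 1 → ∀ y, ‖y‖ < δ → ‖S (s, y)‖ < δ) ∧
    (∀ y, S (0, y) = y) ∧ ∀ᶠ y in 𝓝 (0 : E), ∀ s, S (s, y) = (1 - s) • y := by
  let b : ContDiffBump (0 : E) := ⟨δ / 4, δ / 2, by positivity, by linarith⟩
  refine ⟨fun z => z.2 - (z.1 * b z.2) • z.2, ?_, ?_, ?_, ?_, ?_⟩
  · have h1 : ContDiff ℝ ∞ (fun z : ℝ × E => b z.2) := b.contDiff.comp contDiff_snd
    exact contDiff_snd.sub ((contDiff_fst.mul h1).smul contDiff_snd)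
  · intro s y hy
    have h1 : b y = 0 := b.zero_of_le_dist (by
      rw [dist_zero_right]
      show δ / 2 ≤ ‖y‖
      linarith)
    simp only [h1, mul_zero, zero_smul, sub_zero]
  · intro s hs y hy
    have hb0 : 0 ≤ b y := b.nonneg
    have hb1 : b y ≤ 1 := b.le_one
    have hform : y - (s * b y) • y = (1 - s * b y) • y := by rw [sub_smul, one_smul]
    show ‖y - (s * b y) • y‖ < δ
    rw [hform, norm_smul, Real.norm_eq_abs]
    rcases le_or_gt (δ / 2) ‖y‖ with h1 | h1
    · have h2 : b y = 0 := b.zero_of_le_dist (by rw [dist_zero_right]; exact h1)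
      rw [h2, mul_zero, sub_zero, abs_one, one_mul]
      exact hy
    · have h2 : |1 - s * b y| < 2 := by
        have h3 : |s * b y| < 1 := by
          rw [abs_mul, abs_of_nonneg hb0]
          nlinarith [abs_nonneg s]
        have h4 := abs_lt.1 h3
        rw [abs_lt]
        constructor <;> linarith
      have h3 : |1 - s * b y| * ‖y‖ ≤ 2 * ‖y‖ := mul_le_mul_of_nonneg_right h2.le (norm_nonneg _)
      linarith
  · intro y
    simp only [zero_mul, zero_smul, sub_zero]
  · have h1 : ∀ᶠ y in 𝓝 (0 : E), b y = 1 := b.eventuallyEq_one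
    filter_upwards [h1] with y hy s
    show y - (s * b y) • y = (1 - s) • y
    rw [hy, mul_one, sub_smul, one_smul]

/-- `1 - (1 - s) A` is injective for arbitrarily small `s` -/
theorem exists_small_injective (A : E →L[ℝ] E) {ε : ℝ} (hε : 0 < ε) :
    ∃ s : ℝ, 0 < s ∧ s < ε ∧ s < 1 ∧ ∀ x : E, (1 - s) • A x = x → x = 0 := by
  by_contra hcon
  push Not at hcon
  have hfin : Set.Finite {μ : ℝ | Module.End.HasEigenvalue (A : E →ₗ[ℝ] E) μ} := by
    have := Module.End.finite_hasEigenvalue (A : E →ₗ[ℝ] E)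
    exact this
  have hmap : Set.MapsTo (fun s : ℝ => (1 - s)⁻¹) (Set.Ioo 0 (min ε 1))
      {μ : ℝ | Module.End.HasEigenvalue (A : E →ₗ[ℝ] E) μ} := by
    intro s hs
    obtain ⟨hs0, hs1⟩ := hs
    have hs2 : s < ε := hs1.trans_le (min_le_left _ _)
    have hs3 : s < 1 := hs1.trans_le (min_le_right _ _)
    obtain ⟨x, hx, hx0⟩ := hcon s hs0 hs2 hs3
    have h1 : (1 - s) ≠ 0 := by linarith
    have h2 : A x = (1 - s)⁻¹ • x := by
      have h4 := congrArg (fun z => (1 - s)⁻¹ • z) hx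
      simp only [smul_smul, inv_mul_cancel₀ h1, one_smul] at h4
      exact h4
    exact Module.End.hasEigenvalue_of_hasEigenvector (x := x)
      ⟨Module.End.mem_eigenspace_iff.2 h2, hx0⟩
  have hinj : Set.InjOn (fun s : ℝ => (1 - s)⁻¹) (Set.Ioo 0 (min ε 1)) := by
    intro s _ t _ hst
    have h1 := inv_injective hst
    linarith
  have h3 : (Set.Ioo (0 : ℝ) (min ε 1)).Finite := hfin.of_injOn hmap hinj
  exact (Set.Ioo_infinite (lt_min hε one_pos)) h3

end

variable {E : Type} [NormedAddCommGroup E] [NormedSpace ℝ E] [FiniteDimensional ℝ E]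
  {H : Type} [TopologicalSpace H] {I : ModelWithCorners ℝ E H} [I.Boundaryless]
  {W : Type} [TopologicalSpace W] [T2Space W] [CompactSpace W] [ChartedSpace H W]
  [IsManifold I ∞ W]

omit [CompactSpace W] in
/-- the dilation on the manifold -/
theorem exists_dilation (p : W) (J : Set W) (hJ : J ∈ 𝓝 p) : ∃ T : ℝ × W → W,
    (∀ (s : ℝ) (q : W), |s| < 1 → ContMDiffAt (𝓘(ℝ, ℝ).prod I) I ∞ T (s, q)) ∧
    (∀ q, T (0, q) = q) ∧ (∀ s, ∀ q ∉ J, T (s, q) = q) ∧ (∀ s, T (s, p) = p) ∧
    ∀ᶠ y in 𝓝 (extChartAt I p p), ∀ s, T (s, (extChartAt I p).symm y) =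
      (extChartAt I p).symm (extChartAt I p p + (1 - s) • (y - extChartAt I p p)) := by
  have hnb : (extChartAt I p).target ∩ (extChartAt I p).symm ⁻¹' J ∈ 𝓝 (extChartAt I p p) :=
    Filter.inter_mem (extChartAt_target_mem_nhds p) (extChartAt_preimage_mem_nhds hJ)
  obtain ⟨δ, hδ, hsub⟩ := Metric.nhds_basis_closedBall.mem_iff.1 hnb
  have hball : Metric.closedBall (extChartAt I p p) δ ⊆ (extChartAt I p).target :=
    hsub.trans Set.inter_subset_left
  obtain ⟨S, hS, hS1, hS2, hS0, hSn⟩ := exists_cut_dilation (E := E) δ hδ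
  have hSz : ∀ s, S (s, 0) = 0 := by
    intro s
    have := hSn.self_of_nhds s
    simpa using this
  refine ⟨fun x => trans2_tr I p (fun y => S (x.1, y)) x.2, ?_, ?_, ?_, ?_, ?_⟩
  · intro s q hs
    refine lc_tr_smooth p δ hball S s (fun y => hS.contDiffAt) hS1 ?_ q
    have h1 : ∀ᶠ v in 𝓝 s, |v| < 1 := (continuous_abs.tendsto s).eventually_lt_const hs
    filter_upwards [h1] with v hv y hy
    exact hS2 v hv y hy
  · intro q
    show trans2_tr I p (fun y => S (0, y)) q = q
    by_cases h : q ∈ (extChartAt I p).source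
    · rw [trans2_tr_of_mem p _ q h, hS0, add_sub_cancel]
      exact (extChartAt I p).left_inv h
    · exact trans2_tr_of_not_mem p _ q h
  · intro s q hq
    refine trans2_eq_self p δ _ (hS1 s) q ?_
    rintro ⟨z, hz, hz2⟩
    apply hq
    rw [← hz2]
    exact (hsub hz).2
  · intro s
    show trans2_tr I p (fun y => S (s, y)) p = p
    rw [trans2_tr_of_mem p _ p (mem_extChartAt_source p), sub_self]
    show (extChartAt I p).symm (extChartAt I p p + S (s, 0)) = p
    rw [hSz, add_zero]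
    exact extChartAt_to_inv p
  · have h1 : ∀ᶠ y in 𝓝 (extChartAt I p p), ∀ s,
        S (s, y - extChartAt I p p) = (1 - s) • (y - extChartAt I p p) := by
      have h2 : Tendsto (fun y => y - extChartAt I p p) (𝓝 (extChartAt I p p)) (𝓝 0) := by
        have : ContinuousAt (fun y => y - extChartAt I p p) (extChartAt I p p) := by fun_prop
        rw [ContinuousAt, sub_self] at this
        exact this
      exact h2.eventually hSn
    filter_upwards [h1, extChartAt_target_mem_nhds (I := I) p] with y hy hyt s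
    show trans2_tr I p (fun y => S (s, y)) ((extChartAt I p).symm y) = _
    rw [trans2_tr_of_mem p _ _ ((extChartAt I p).map_target hyt), (extChartAt I p).right_inv hyt]
    show (extChartAt I p).symm (extChartAt I p p + S (s, y - extChartAt I p p)) = _
    rw [hy]

/-- **Robust periodic points.** If `p ∈ O` is periodic for `G₀` then `G₀` is a limit of maps all of
whose neighbours have a periodic point in `O`. -/
theorem exists_robust {r : ℕ∞} (hr : 1 ≤ r) (G₀ : W ≃ₘ^r⟮I, I⟯ W) (p : W) (n : ℕ) (hn : 0 < n)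
    (hp : (G₀ : W → W)^[n] p = p) (O : Set W) (hO : O ∈ 𝓝 p) (U : Set (W ≃ₘ^r⟮I, I⟯ W))
    (hU : U ∈ @nhds _ (crTopology I r) G₀) :
    letI := crTopology I (W := W) r
    ∃ G₁ ∈ U, ∀ᶠ G : W ≃ₘ^r⟮I, I⟯ W in 𝓝 G₁, ∃ q ∈ O, ∃ k : ℕ, 0 < k ∧ (G : W → W)^[k] q = q := by
  let _ := crTopology I (W := W) r
  -- the minimal period
  obtain ⟨m, hm0, hmp, hmin⟩ : ∃ m, 0 < m ∧ (G₀ : W → W)^[m] p = p ∧
      ∀ i, 0 < i → i < m → (G₀ : W → W)^[i] p ≠ p := by
    classical
    have hex : ∃ m, 0 < m ∧ (G₀ : W → W)^[m] p = p := ⟨n, hn, hp⟩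
    refine ⟨Nat.find hex, (Nat.find_spec hex).1, (Nat.find_spec hex).2, fun i h1 h2 h3 => ?_⟩
    exact Nat.find_min hex h2 ⟨h1, h3⟩
  -- the neighbourhood
  obtain ⟨J, hJ, K, hK⟩ := HM.sep_fin (fun i => (G₀ : W → W)^[i] p) p m hmin
  obtain ⟨T, hT, hT0, hTJ, hTp, hTn⟩ := exists_dilation (I := I) p J hJ
  have hle : (r : WithTop ℕ∞) ≤ (∞ : WithTop ℕ∞) := by exact_mod_cast le_top
  let Φ : ℝ × W → W := fun x => G₀ (T x)
  have hΦ : ∀ (s : ℝ) (q : W), |s| < 1 → ContMDiffAt (𝓘(ℝ, ℝ).prod I) I r Φ (s, q) := by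
    intro s q hs
    exact ContMDiffAt.comp (g := G₀) (f := T) (s, q) G₀.contMDiff.contMDiffAt
      ((hT s q hs).of_le hle)
  have hΦ0 : ∀ q, ContMDiffAt (𝓘(ℝ, ℝ).prod I) I r Φ (0, q) := fun q => hΦ 0 q (by simp)
  have hΦG : ∀ q, Φ (0, q) = G₀ q := fun q => by
    show G₀ (T (0, q)) = G₀ q
    rw [hT0]
  have h1 := ds_diffeo hr Φ hΦ0 G₀ hΦG
  have h2 := mem_nhds_of_family Φ 0 hΦ0 G₀ (fun q => (hΦG q).symm) U hU
  obtain ⟨ε, hε, hεb⟩ := Metric.eventually_nhds_iff.1 (h1.and h2)
  -- the derivative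
  set u : E → E := fun y => extChartAt I p ((G₀ : W → W)^[m] ((extChartAt I p).symm y)) with hu
  have hud : DifferentiableAt ℝ u (extChartAt I p p) := by
    have mθ : chartAt H p ∈ IsManifold.maximalAtlas I ∞ W := IsManifold.chart_mem_maximalAtlas p
    have sθ : p ∈ (chartAt H p).source := mem_chart_source H p
    have h3 : CK G₀ (extChartAt I p p) 1 E (fun (G : W ≃ₘ^r⟮I, I⟯ W) x =>
        extChartAt I p ((G : W → W)^[m] ((extChartAt I p).symm x))) := by
      have := iter_CK hr G₀ mθ sθ m (η := chartAt H p) mθ (by rw [hmp]; exact sθ)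
      exact this
    exact h3.2.1.self_of_nhds
  obtain ⟨s, hs0, hsε, hs1, hsA⟩ := exists_small_injective (fderiv ℝ u (extChartAt I p p)) hε
  have hsabs : |s| < 1 := by rw [abs_of_pos hs0]; exact hs1
  have hsm : ContMDiff I I r (fun q => Φ (s, q)) := by
    intro q
    exact ContMDiffAt.comp (g := Φ) (f := fun q : W => (s, q)) q (hΦ s q hsabs)
      (contMDiffAt_const.prodMk contMDiffAt_id)
  have hsdist : dist s 0 < ε := by rw [Real.dist_eq, sub_zero, abs_of_pos hs0]; exact hsε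
  obtain ⟨h3, h4⟩ := hεb hsdist
  obtain ⟨G₁, hG₁⟩ := h3 hsm
  refine ⟨G₁, h4 G₁ hG₁, ?_⟩
  -- iterates of `G₁` near `p`
  have hG₁' : ∀ q, G₁ q = G₀ (T (s, q)) := hG₁
  have hTc : Tendsto (fun q => T (s, q)) (𝓝 p) (𝓝 p) := by
    have h5 : ContinuousAt T (s, p) := (hT s p hsabs).continuousAt
    have h6 : ContinuousAt (fun q => T (s, q)) p :=
      ContinuousAt.comp (g := T) (f := fun q : W => (s, q)) h5
        (continuousAt_const.prodMk continuousAt_id)
    have := h6.tendsto
    rwa [hTp] at this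
  have hout : ∀ᶠ q in 𝓝 p, ∀ i, 0 < i → i < m → (G₀ : W → W)^[i] (T (s, q)) ∉ J := by
    have h5 : ∀ᶠ z in 𝓝 p, ∀ i, 0 < i → i < m → z ∈ (G₀ : W → W)^[i] ⁻¹' (K i) :=
      HM.inter_fin p m _ fun i h6 h7 => (G₀.continuous.iterate i).continuousAt (hK i h6 h7).1
    filter_upwards [hTc.eventually h5] with q hq i h6 h7
    exact (hK i h6 h7).2 _ (hq i h6 h7)
  have hiter : ∀ q, (∀ i, 0 < i → i < m → (G₀ : W → W)^[i] (T (s, q)) ∉ J) →
      ∀ i, 0 < i → i ≤ m → (G₁ : W → W)^[i] q = (G₀ : W → W)^[i] (T (s, q)) := by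
    intro q hq i
    induction i with
    | zero => intro h5; exact absurd h5 (lt_irrefl 0)
    | succ i ih =>
      intro _ h6
      rcases Nat.eq_zero_or_pos i with h7 | h7
      · subst h7
        exact hG₁' q
      · rw [Function.iterate_succ_apply', ih h7 (by omega), hG₁', hTJ s _ (hq i h7 (by omega)),
          Function.iterate_succ_apply']
  have hp₁ : (G₁ : W → W)^[m] p = p := by
    rw [hiter p hout.self_of_nhds m hm0 le_rfl, hTp, hmp]
  -- the derivative of the return map of `G₁`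
  have hder : ∀ x : E, fderiv ℝ (fun y => extChartAt I p ((G₁ : W → W)^[m]
      ((extChartAt I p).symm y))) (extChartAt I p p) x = x → x = 0 := by
    have h5 : (fun y => extChartAt I p ((G₁ : W → W)^[m] ((extChartAt I p).symm y))) =ᶠ[
        𝓝 (extChartAt I p p)]
        fun y => u (extChartAt I p p + (1 - s) • (y - extChartAt I p p)) := by
      have h6 : Tendsto (extChartAt I p).symm (𝓝 (extChartAt I p p)) (𝓝 p) := by
        have := (continuousAt_extChartAt_symm (I := I) p).tendsto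
        rwa [extChartAt_to_inv] at this
      filter_upwards [h6.eventually hout, hTn] with y h7 h8
      show extChartAt I p ((G₁ : W → W)^[m] ((extChartAt I p).symm y)) =
        extChartAt I p ((G₀ : W → W)^[m] ((extChartAt I p).symm
          (extChartAt I p p + (1 - s) • (y - extChartAt I p p))))
      rw [hiter _ h7 m hm0 le_rfl, h8]
    rw [h5.fderiv_eq]
    have h6 : HasFDerivAt (fun y => extChartAt I p p + (1 - s) • (y - extChartAt I p p))
        ((1 - s) • ContinuousLinearMap.id ℝ E) (extChartAt I p p) := by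
      have h7 : HasFDerivAt (fun y : E => y - extChartAt I p p) (ContinuousLinearMap.id ℝ E)
          (extChartAt I p p) := (hasFDerivAt_id _).sub_const _
      exact (h7.const_smul (1 - s)).const_add _
    have h7 : HasFDerivAt u (fderiv ℝ u (extChartAt I p p))
        ((fun y => extChartAt I p p + (1 - s) • (y - extChartAt I p p)) (extChartAt I p p)) := by
      have h8 : (fun y => extChartAt I p p + (1 - s) • (y - extChartAt I p p))
          (extChartAt I p p) = extChartAt I p p := by simp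
      rw [h8]
      exact hud.hasFDerivAt
    have h8 := (h7.comp (extChartAt I p p) h6).fderiv
    have h9 : fderiv ℝ (fun y => u (extChartAt I p p + (1 - s) • (y - extChartAt I p p)))
        (extChartAt I p p) = (fderiv ℝ u (extChartAt I p p)).comp
          ((1 - s) • ContinuousLinearMap.id ℝ E) := h8
    intro x hx
    rw [h9] at hx
    apply hsA x
    simpa using hx
  filter_upwards [persist hr G₁ p m hp₁ hder O hO] with G ⟨q, hq, hGq⟩
  exact ⟨q, hq, m, hm0, hGq⟩

end Pool.Agent.SC
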