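import Pool.Agent.Lib.MP_1e8d1a_an.SC.Defs

/-! Definition: Baire sets of `Diff^r(W)`. -/

open scoped ContDiff Manifold Topology

namespace Pool.Agent.SC

variable {E : Type} [NormedAddCommGroup E] [NormedSpace ℝ E] {H : Type} [TopologicalSpace H]
  (I : ModelWithCorners ℝ E H) {W : Type} [TopologicalSpace W] [ChartedSpace H W]

/-- `A` is a Baire set of `Diff^r(W)`: it contains a countable intersection of open dense sets. -/
def BaireSet (r : ℕ∞) (A : Set (W ≃ₘ^r⟮I, I⟯ W)) : Prop :=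
  letI := crTopology I (W := W) r
  ∃ U : ℕ → Set (W ≃ₘ^r⟮I, I⟯ W), (∀ n, IsOpen (U n) ∧ Dense (U n)) ∧ ⋂ n, U n ⊆ A

end Pool.Agent.SC
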