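import Pool.Agent.Lib.MP_1e8d1a_an.HM.GenC
import Pool.Agent.Lib.MP_1e8d1a_an.HM.GenDefs

/-! For generic `F` every closable point is a limit of periodic points. -/

open scoped ContDiff Manifold Topology
open Filter

namespace Pool.Agent.SC

/-- `A ∪ (closure A)ᶜ` is open and dense for open `A` -/
theorem dense_union_compl {X : Type} [TopologicalSpace X] {A : Set X} (hA : IsOpen A) :
    IsOpen (A ∪ (closure A)ᶜ) ∧ Dense (A ∪ (closure A)ᶜ) := by
  refine ⟨hA.union isClosed_closure.isOpen_compl, ?_⟩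
  intro x
  by_cases hx : x ∈ closure A
  · exact closure_mono Set.subset_union_left hx
  · exact subset_closure (Or.inr hx)

variable {E : Type} [NormedAddCommGroup E] [NormedSpace ℝ E] [FiniteDimensional ℝ E]
  {H : Type} [TopologicalSpace H] {I : ModelWithCorners ℝ E H} [I.Boundaryless]
  {W : Type} [TopologicalSpace W] [T2Space W] [CompactSpace W] [ChartedSpace H W]
  [IsManifold I ∞ W]

/-- **General density theorem for closable points.** There is a Baire set of diffeomorphisms `F` for
which every closable point is a limit of periodic points. -/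
theorem generic_closable {r : ℕ∞} (hr : 1 ≤ r) :
    BaireSet I r {F : W ≃ₘ^r⟮I, I⟯ W | ∀ p, Closable I F p →
      p ∈ closure {q : W | ∃ n : ℕ, 0 < n ∧ (F : W → W)^[n] q = q}} := by
  let _ := crTopology I (W := W) r
  have hH : SecondCountableTopology H := by
    have : SecondCountableTopology E := inferInstance
    exact I.secondCountableTopology
  have hW : SecondCountableTopology W := ChartedSpace.secondCountable_of_sigmaCompact H W
  obtain ⟨b, hbc, -, hb⟩ := TopologicalSpace.exists_countable_basis W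
  rcases isEmpty_or_nonempty W with hemp | hne
  · exact ⟨fun _ => Set.univ, fun n => ⟨isOpen_univ, dense_univ⟩, fun F _ p => (hemp.false p).elim⟩
  have hbne : b.Nonempty := by
    obtain ⟨x⟩ := hne
    obtain ⟨o, ho, -⟩ := hb.exists_subset_of_mem_open (Set.mem_univ x) isOpen_univ
    exact ⟨o, ho⟩
  obtain ⟨B, hB⟩ := hbc.exists_eq_range hbne
  let P : ℕ → Set (W ≃ₘ^r⟮I, I⟯ W) := fun k =>
    {F | ∃ q ∈ B k, ∃ n : ℕ, 0 < n ∧ (F : W → W)^[n] q = q}
  let A : ℕ → Set (W ≃ₘ^r⟮I, I⟯ W) := fun k => interior (P k)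
  refine ⟨fun k => A k ∪ (closure (A k))ᶜ, fun k => dense_union_compl isOpen_interior, ?_⟩
  intro F hF p hp
  rw [hb.mem_closure_iff]
  intro o ho hpo
  obtain ⟨k, hk⟩ : ∃ k, B k = o := by
    rw [hB] at ho
    exact ho
  have hFk := Set.mem_iInter.1 hF k
  rcases hFk with h1 | h1
  · obtain ⟨q, hq, n, hn, hFq⟩ := interior_subset h1
    exact ⟨q, by rw [← hk]; exact hq, n, hn, hFq⟩
  · exfalso
    have hopen : IsOpen (closure (A k))ᶜ := isClosed_closure.isOpen_compl
    obtain ⟨G, hG, n, hn, hGp⟩ := hp _ (hopen.mem_nhds h1)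
    have hO : o ∈ 𝓝 p := (hb.isOpen ho).mem_nhds hpo
    obtain ⟨G₁, hG₁, hrob⟩ := exists_robust hr G p n hn hGp o hO _ (hopen.mem_nhds hG)
    apply hG₁
    apply subset_closure
    rw [mem_interior_iff_mem_nhds]
    rw [← hk] at hrob
    exact hrob

end Pool.Agent.SC
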