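import Mathlib

/-! Two sided boundary value problem at a hyperbolic fixed point. -/

open scoped Topology

namespace Pool.Agent.HM

variable {E : Type} [NormedAddCommGroup E] [NormedSpace ℝ E]

/-- the solution of `v (j + 1) = A (v j) + h j`, `0 ≤ j < n`, with `P (v 0) = 0`, `v n` in the range
of `P` -/
noncomputable def gr (A B P : E →L[ℝ] E) (n : ℕ) (h : ℕ → E) (j : ℕ) : E :=
  (∑ i ∈ Finset.range j, (⇑A)^[j - 1 - i] (P (h i))) -
    ∑ i ∈ Finset.Ico j n, (⇑B)^[i + 1 - j] (h i - P (h i))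

theorem iter_sub (A : E →L[ℝ] E) (n : ℕ) (x y : E) :
    (⇑A)^[n] (x - y) = (⇑A)^[n] x - (⇑A)^[n] y := by
  induction n with
  | zero => rfl
  | succ n ih => rw [Function.iterate_succ_apply', Function.iterate_succ_apply',
      Function.iterate_succ_apply', ih, map_sub]

theorem gr_step (A B P : E →L[ℝ] E) (hAB : ∀ x, A (B x) = x) (n : ℕ) (h : ℕ → E) (j : ℕ)
    (hj : j < n) : gr A B P n h (j + 1) = A (gr A B P n h j) + h j := by
  unfold gr
  rw [map_sub, map_sum, map_sum, Finset.sum_range_succ]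
  have e1 : ∑ i ∈ Finset.range j, A ((⇑A)^[j - 1 - i] (P (h i))) =
      ∑ i ∈ Finset.range j, (⇑A)^[j + 1 - 1 - i] (P (h i)) := by
    refine Finset.sum_congr rfl fun i hi => ?_
    have h1 : i < j := Finset.mem_range.1 hi
    rw [← Function.iterate_succ_apply' (⇑A)]
    congr 1
    omega
  have e2 : ∑ i ∈ Finset.Ico j n, A ((⇑B)^[i + 1 - j] (h i - P (h i))) =
      ∑ i ∈ Finset.Ico j n, (⇑B)^[i + 1 - (j + 1)] (h i - P (h i)) := by
    refine Finset.sum_congr rfl fun i hi => ?_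
    have h1 := (Finset.mem_Ico.1 hi).1
    have h2 : i + 1 - j = (i + 1 - (j + 1)) + 1 := by omega
    rw [h2, Function.iterate_succ_apply', hAB]
  have e3 : ∑ i ∈ Finset.Ico j n, (⇑B)^[i + 1 - (j + 1)] (h i - P (h i)) =
      (h j - P (h j)) + ∑ i ∈ Finset.Ico (j + 1) n, (⇑B)^[i + 1 - (j + 1)] (h i - P (h i)) := by
    rw [Finset.sum_eq_sum_Ico_succ_bot hj]
    congr 1
    rw [Nat.sub_self]
    rfl
  have e4 : (⇑A)^[j + 1 - 1 - j] (P (h j)) = P (h j) := by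
    rw [show j + 1 - 1 - j = 0 by omega]
    rfl
  rw [e1, e2, e3, e4]
  abel

theorem geom_le {θ : ℝ} (h0 : 0 ≤ θ) (h1 : θ < 1) (m : ℕ) :
    ∑ k ∈ Finset.range m, θ ^ k ≤ (1 - θ)⁻¹ :=
  sum_le_hasSum _ (fun i _ => pow_nonneg h0 i) (hasSum_geometric_of_lt_one h0 h1)

theorem gr_bound (A B P : E →L[ℝ] E) {C θ : ℝ} (hC : 0 ≤ C) (h0 : 0 ≤ θ) (h1 : θ < 1)
    (hst : ∀ (k : ℕ) x, ‖(⇑A)^[k] (P x)‖ ≤ C * θ ^ k * ‖x‖)
    (hun : ∀ (k : ℕ) x, ‖(⇑B)^[k] (x - P x)‖ ≤ C * θ ^ k * ‖x‖) (n : ℕ) (h : ℕ → E) {s : ℝ}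
    (hs0 : 0 ≤ s) (hs : ∀ i < n, ‖h i‖ ≤ s) (j : ℕ) (hj : j ≤ n) :
    ‖gr A B P n h j‖ ≤ 2 * C * (1 - θ)⁻¹ * s := by
  unfold gr
  refine (norm_sub_le _ _).trans ?_
  have hCs : 0 ≤ C * s := mul_nonneg hC hs0
  have b1 : ‖∑ i ∈ Finset.range j, (⇑A)^[j - 1 - i] (P (h i))‖ ≤ C * s * (1 - θ)⁻¹ := by
    refine (norm_sum_le _ _).trans ?_
    calc ∑ i ∈ Finset.range j, ‖(⇑A)^[j - 1 - i] (P (h i))‖
        ≤ ∑ i ∈ Finset.range j, C * s * θ ^ (j - 1 - i) := by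
          refine Finset.sum_le_sum fun i hi => (hst _ _).trans ?_
          have h2 := hs i ((Finset.mem_range.1 hi).trans_le hj)
          have h3 : 0 ≤ C * θ ^ (j - 1 - i) := mul_nonneg hC (pow_nonneg h0 _)
          calc C * θ ^ (j - 1 - i) * ‖h i‖ ≤ C * θ ^ (j - 1 - i) * s :=
                mul_le_mul_of_nonneg_left h2 h3
            _ = C * s * θ ^ (j - 1 - i) := by ring
      _ = C * s * ∑ i ∈ Finset.range j, θ ^ (j - 1 - i) := by rw [Finset.mul_sum]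
      _ = C * s * ∑ i ∈ Finset.range j, θ ^ i := by
          rw [Finset.sum_range_reflect (fun i => θ ^ i) j]
      _ ≤ C * s * (1 - θ)⁻¹ := mul_le_mul_of_nonneg_left (geom_le h0 h1 j) hCs
  have b2 : ‖∑ i ∈ Finset.Ico j n, (⇑B)^[i + 1 - j] (h i - P (h i))‖ ≤ C * s * (1 - θ)⁻¹ := by
    refine (norm_sum_le _ _).trans ?_
    calc ∑ i ∈ Finset.Ico j n, ‖(⇑B)^[i + 1 - j] (h i - P (h i))‖
        ≤ ∑ i ∈ Finset.Ico j n, C * s * θ ^ (i - j) := by
          refine Finset.sum_le_sum fun i hi => (hun _ _).trans ?_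
          obtain ⟨h4, h5⟩ := Finset.mem_Ico.1 hi
          have h2 := hs i h5
          have h3 : θ ^ (i + 1 - j) ≤ θ ^ (i - j) := pow_le_pow_of_le_one h0 h1.le (by omega)
          have h6 : 0 ≤ θ ^ (i + 1 - j) := pow_nonneg h0 _
          calc C * θ ^ (i + 1 - j) * ‖h i‖ ≤ C * θ ^ (i + 1 - j) * s :=
                mul_le_mul_of_nonneg_left h2 (mul_nonneg hC h6)
            _ = C * s * θ ^ (i + 1 - j) := by ring
            _ ≤ C * s * θ ^ (i - j) := mul_le_mul_of_nonneg_left h3 hCs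
      _ = C * s * ∑ i ∈ Finset.Ico j n, θ ^ (i - j) := by rw [Finset.mul_sum]
      _ = C * s * ∑ i ∈ Finset.range (n - j), θ ^ i := by
          rw [Finset.sum_Ico_eq_sum_range]
          congr 1
          refine Finset.sum_congr rfl fun i _ => ?_
          rw [Nat.add_sub_cancel_left]
      _ ≤ C * s * (1 - θ)⁻¹ := mul_le_mul_of_nonneg_left (geom_le h0 h1 _) hCs
  calc _ ≤ C * s * (1 - θ)⁻¹ + C * s * (1 - θ)⁻¹ := add_le_add b1 b2
    _ = _ := by ring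

theorem gr_sub (A B P : E →L[ℝ] E) (n : ℕ) (h h' : ℕ → E) (j : ℕ) :
    gr A B P n h j - gr A B P n h' j = gr A B P n (fun i => h i - h' i) j := by
  unfold gr
  have e1 : ∑ i ∈ Finset.range j, (⇑A)^[j - 1 - i] (P (h i - h' i)) =
      ∑ i ∈ Finset.range j, (⇑A)^[j - 1 - i] (P (h i)) -
        ∑ i ∈ Finset.range j, (⇑A)^[j - 1 - i] (P (h' i)) := by
    rw [← Finset.sum_sub_distrib]
    refine Finset.sum_congr rfl fun i _ => ?_
    rw [map_sub, iter_sub]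
  have e2 : ∑ i ∈ Finset.Ico j n, (⇑B)^[i + 1 - j] (h i - h' i - P (h i - h' i)) =
      ∑ i ∈ Finset.Ico j n, (⇑B)^[i + 1 - j] (h i - P (h i)) -
        ∑ i ∈ Finset.Ico j n, (⇑B)^[i + 1 - j] (h' i - P (h' i)) := by
    rw [← Finset.sum_sub_distrib]
    refine Finset.sum_congr rfl fun i _ => ?_
    rw [← iter_sub, map_sub]
    congr 1
    abel
  rw [e1, e2]
  abel

end Pool.Agent.HM
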