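import Pool.Agent.Lib.MP_1e8d1a_an.HM.Lin

/-! Linking of orbits at a hyperbolic fixed point: the local statement. -/

open scoped Topology NNReal

namespace Pool.Agent.HM

variable {E : Type} [NormedAddCommGroup E] [NormedSpace ℝ E]

/-- extension of a finite sequence by `0` -/
noncomputable def ext0 {n : ℕ} (u : Fin (n + 1) → E) (i : ℕ) : E :=
  if h : i < n + 1 then u ⟨i, h⟩ else 0

theorem ext0_of_le {n : ℕ} (u : Fin (n + 1) → E) {i : ℕ} (h : i ≤ n) :
    ext0 u i = u ⟨i, Nat.lt_succ_of_le h⟩ := by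
  unfold ext0
  rw [dif_pos (Nat.lt_succ_of_le h)]

theorem norm_ext0_le {n : ℕ} (u : Fin (n + 1) → E) (i : ℕ) : ‖ext0 u i‖ ≤ ‖u‖ := by
  unfold ext0
  split_ifs with h
  · exact norm_le_pi_norm u _
  · rw [norm_zero]
    exact norm_nonneg _

theorem ext0_sub {n : ℕ} (u v : Fin (n + 1) → E) (i : ℕ) :
    ext0 u i - ext0 v i = ext0 (u - v) i := by
  unfold ext0
  split_ifs with h
  · rfl
  · rw [sub_zero]

theorem link_local [CompleteSpace E] (Φ : E → E) (A B P : E →L[ℝ] E) {C θ : ℝ} (hC : 0 ≤ C)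
    (h0 : 0 ≤ θ) (h1 : θ < 1) (hAB : ∀ x, A (B x) = x)
    (hst : ∀ (k : ℕ) x, ‖(⇑A)^[k] (P x)‖ ≤ C * θ ^ k * ‖x‖)
    (hun : ∀ (k : ℕ) x, ‖(⇑B)^[k] (x - P x)‖ ≤ C * θ ^ k * ‖x‖) (hΦ0 : Φ 0 = 0)
    (hΦ : HasStrictFDerivAt Φ A 0) {ρ : ℝ} (hρ : 0 < ρ) :
    ∃ ρ' > 0, ∀ a b : ℕ → E, (∀ j, a (j + 1) = Φ (a j)) → (∀ j, Φ (b (j + 1)) = b j) →
      (∀ j, ‖a j‖ < ρ') → (∀ j, ‖b j‖ < ρ') → Filter.Tendsto a Filter.atTop (𝓝 0) →
      Filter.Tendsto b Filter.atTop (𝓝 0) → ∀ ε > 0, ∃ n₀ : ℕ, ∀ n ≥ n₀, ∃ z : ℕ → E,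
        (∀ j < n, z (j + 1) = Φ (z j)) ∧ (∀ j ≤ n, ‖z j‖ < ρ) ∧ ‖z 0 - a 0‖ < ε ∧
        ‖z n - b 0‖ < ε := by
  set K : ℝ := 2 * C * (1 - θ)⁻¹ with hK
  have hK0 : 0 ≤ K := mul_nonneg (by linarith) (inv_nonneg.2 (by linarith))
  set η : ℝ := 1 / (4 * (K + 1)) with hη
  have hη0 : 0 < η := by positivity
  have hKη : K * η ≤ 1 / 4 := by
    rw [hη, mul_one_div, div_le_div_iff₀ (by positivity) (by norm_num)]
    linarith
  have hlo := hΦ.isLittleO.def hη0
  rw [Filter.eventually_iff, mem_nhds_prod_iff'] at hlo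
  obtain ⟨U, V, hU, hU0, hV, hV0, hUV⟩ := hlo
  obtain ⟨ρ₀, hρ₀, hball⟩ := Metric.isOpen_iff.1 (hU.inter hV) 0 ⟨hU0, hV0⟩
  set ρ₁ := min ρ₀ ρ with hρ₁
  have hρ₁0 : 0 < ρ₁ := lt_min hρ₀ hρ
  have hρ₁ρ : ρ₁ ≤ ρ := min_le_right _ _
  -- the nonlinear part
  set φ : E → E := fun x => Φ x - A x with hφ
  have hφ0 : φ 0 = 0 := by simp [hφ, hΦ0]
  have hlip : ∀ x y : E, ‖x‖ < ρ₁ → ‖y‖ < ρ₁ → ‖φ x - φ y‖ ≤ η * ‖x - y‖ := by
    intro x y hx hy
    have hx' : x ∈ Metric.ball (0 : E) ρ₀ := by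
      rw [mem_ball_zero_iff]; exact hx.trans_le (min_le_left _ _)
    have hy' : y ∈ Metric.ball (0 : E) ρ₀ := by
      rw [mem_ball_zero_iff]; exact hy.trans_le (min_le_left _ _)
    have h2 := hUV (show (x, y) ∈ U ×ˢ V from ⟨(hball hx').1, (hball hy').2⟩)
    have h3 : ‖Φ x - Φ y - A (x - y)‖ ≤ η * ‖x - y‖ := h2
    have h4 : φ x - φ y = Φ x - Φ y - A (x - y) := by
      simp only [hφ, map_sub]; abel
    rw [h4]
    exact h3
  have hlip0 : ∀ x : E, ‖x‖ < ρ₁ → ‖φ x‖ ≤ η * ‖x‖ := by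
    intro x hx
    have := hlip x 0 hx (by rwa [norm_zero])
    rwa [hφ0, sub_zero, sub_zero] at this
  refine ⟨ρ₁ / 8, by positivity, fun a b ha hb har hbr hat hbt ε hε => ?_⟩
  set τ : ℝ := min (ε / 2) (ρ₁ / 2) with hτ
  have hτ0 : 0 < τ := lt_min (by positivity) (by positivity)
  have hτε : τ ≤ ε / 2 := min_le_left _ _
  have hτρ : τ ≤ ρ₁ / 2 := min_le_right _ _
  have e1 : ∀ᶠ j in Filter.atTop, ‖a j‖ < τ ∧ ‖b j‖ < τ := by
    have h2 := hat.norm
    have h3 := hbt.norm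
    rw [norm_zero] at h2 h3
    exact (h2.eventually_lt_const hτ0).and (h3.eventually_lt_const hτ0)
  obtain ⟨N, hN⟩ := Filter.eventually_atTop.1 e1
  refine ⟨2 * N, fun n hn => ?_⟩
  -- the map
  set h : (Fin (n + 1) → E) → ℕ → E := fun u i =>
    φ (a i + b (n - i) + ext0 u i) - φ (a i) - φ (b (n - i)) with hh
  set Γ : (Fin (n + 1) → E) → (Fin (n + 1) → E) := fun u j => gr A B P n (h u) j with hΓ
  have hsmall : ∀ u : Fin (n + 1) → E, ‖u‖ ≤ τ → ∀ i, ‖a i + b (n - i) + ext0 u i‖ < ρ₁ := by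
    intro u hu i
    have h2 := har i
    have h3 := hbr (n - i)
    have h4 := (norm_ext0_le u i).trans hu
    have h5 : ‖a i + b (n - i) + ext0 u i‖ ≤ ‖a i‖ + ‖b (n - i)‖ + ‖ext0 u i‖ :=
      (norm_add_le _ _).trans (by linarith [norm_add_le (a i) (b (n - i))])
    linarith
  have hmin : ∀ i ≤ n, ‖φ (a i + b (n - i)) - φ (a i) - φ (b (n - i))‖ ≤ 2 * η * τ := by
    intro i hi
    have hai := har i
    have hbi := hbr (n - i)
    have hab : ‖a i + b (n - i)‖ < ρ₁ := by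
      have := norm_add_le (a i) (b (n - i)); linarith
    rcases le_total N i with hNi | hNi
    · have h2 := (hN i hNi).1
      have h3 := hlip (a i + b (n - i)) (b (n - i)) hab (by linarith)
      have h4 := hlip0 (a i) (by linarith)
      rw [add_sub_cancel_right] at h3
      have h5 : φ (a i + b (n - i)) - φ (a i) - φ (b (n - i)) =
          (φ (a i + b (n - i)) - φ (b (n - i))) - φ (a i) := by abel
      rw [h5]
      refine (norm_sub_le _ _).trans ?_
      nlinarith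
    · have h2 := (hN (n - i) (by omega)).2
      have h3 := hlip (a i + b (n - i)) (a i) hab (by linarith)
      have h4 := hlip0 (b (n - i)) (by linarith)
      rw [add_sub_cancel_left] at h3
      refine (norm_sub_le _ _).trans ?_
      nlinarith
  have hmaps : Set.MapsTo Γ (Metric.closedBall 0 τ) (Metric.closedBall 0 τ) := by
    intro u hu
    rw [mem_closedBall_zero_iff] at hu ⊢
    rw [pi_norm_le_iff_of_nonneg hτ0.le]
    intro j
    have h2 : ∀ i < n, ‖h u i‖ ≤ 3 * η * τ := by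
      intro i hi
      have h3 := hmin i hi.le
      have h4 := hlip (a i + b (n - i) + ext0 u i) (a i + b (n - i)) (hsmall u hu i) (by
        have := norm_add_le (a i) (b (n - i))
        have := har i
        have := hbr (n - i)
        linarith)
      rw [add_sub_cancel_left] at h4
      have h5 := (norm_ext0_le u i).trans hu
      have h6 : h u i = (φ (a i + b (n - i) + ext0 u i) - φ (a i + b (n - i))) +
          (φ (a i + b (n - i)) - φ (a i) - φ (b (n - i))) := by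
        simp only [hh]; abel
      rw [h6]
      refine (norm_add_le _ _).trans ?_
      nlinarith
    have h3 := gr_bound A B P hC h0 h1 hst hun n (h u) (by positivity) h2 j (Nat.le_of_lt_succ j.2)
    refine h3.trans ?_
    rw [← hK]
    nlinarith
  have hcontr : ContractingWith (1 / 4 : ℝ≥0) (hmaps.restrict Γ _ _) := by
    constructor
    · rw [← NNReal.coe_lt_coe]; norm_num
    · refine LipschitzWith.of_dist_le_mul fun u v => ?_
      rw [Subtype.dist_eq, Subtype.dist_eq, dist_eq_norm, dist_eq_norm]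
      have hu := u.2
      have hv := v.2
      rw [mem_closedBall_zero_iff] at hu hv
      set u' : Fin (n + 1) → E := u.1 with hu'
      set v' : Fin (n + 1) → E := v.1 with hv'
      show ‖Γ u' - Γ v'‖ ≤ ((1 / 4 : ℝ≥0) : ℝ) * ‖u' - v'‖
      have e0 : ((1 / 4 : ℝ≥0) : ℝ) = 1 / 4 := by norm_num
      rw [e0, pi_norm_le_iff_of_nonneg (by positivity)]
      intro j
      show ‖gr A B P n (h u') j - gr A B P n (h v') j‖ ≤ _
      rw [gr_sub]
      have h2 : ∀ i < n, ‖h u' i - h v' i‖ ≤ η * ‖u' - v'‖ := by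
        intro i hi
        have h3 := hlip _ _ (hsmall u' hu i) (hsmall v' hv i)
        have h4 : h u' i - h v' i = φ (a i + b (n - i) + ext0 u' i) -
            φ (a i + b (n - i) + ext0 v' i) := by
          simp only [hh]; abel
        rw [h4]
        refine h3.trans ?_
        rw [add_sub_add_left_eq_sub, ext0_sub]
        exact mul_le_mul_of_nonneg_left (norm_ext0_le _ _) hη0.le
      have h3 := gr_bound A B P hC h0 h1 hst hun n (fun i => h u' i - h v' i)
        (mul_nonneg hη0.le (norm_nonneg _)) h2 j (Nat.le_of_lt_succ j.2)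
      refine h3.trans ?_
      rw [← hK]
      have h5 := norm_nonneg (u' - v')
      nlinarith
  obtain ⟨u, hu, hfix, -⟩ := ContractingWith.exists_fixedPoint' (s := Metric.closedBall 0 τ)
    (Metric.isClosed_closedBall.isComplete) hmaps hcontr (x := 0)
    (by rw [mem_closedBall_zero_iff, norm_zero]; exact hτ0.le) (edist_ne_top _ _)
  rw [mem_closedBall_zero_iff] at hu
  have hfix' : ∀ j ≤ n, ext0 u j = gr A B P n (h u) j := by
    intro j hj
    rw [ext0_of_le u hj]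
    exact (congrFun hfix ⟨j, Nat.lt_succ_of_le hj⟩).symm
  refine ⟨fun j => a j + b (n - j) + ext0 u j, fun j hj => ?_, fun j hj => ?_, ?_, ?_⟩
  · show a (j + 1) + b (n - (j + 1)) + ext0 u (j + 1) = Φ (a j + b (n - j) + ext0 u j)
    rw [hfix' (j + 1) hj, gr_step A B P hAB n (h u) j hj, ← hfix' j hj.le, ha j]
    have h2 : b (n - (j + 1)) = Φ (b (n - j)) := by
      rw [← hb (n - (j + 1))]
      congr 2
      omega
    have h3 : ∀ x, Φ x = A x + φ x := fun x => by simp [hφ]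
    rw [h2, h3 (a j), h3 (b (n - j)), h3 (a j + b (n - j) + ext0 u j), map_add, map_add]
    simp only [hh]
    abel
  · exact (hsmall u hu j).trans_le hρ₁ρ
  · show ‖a 0 + b (n - 0) + ext0 u 0 - a 0‖ < ε
    have h2 := (hN n (by omega)).2
    have h3 := (norm_ext0_le u 0).trans hu
    have h4 : a 0 + b (n - 0) + ext0 u 0 - a 0 = b n + ext0 u 0 := by
      rw [Nat.sub_zero]; abel
    rw [h4]
    have := norm_add_le (b n) (ext0 u 0)
    linarith
  · show ‖a n + b (n - n) + ext0 u n - b 0‖ < ε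
    have h2 := (hN n (by omega)).1
    have h3 := (norm_ext0_le u n).trans hu
    have h4 : a n + b (n - n) + ext0 u n - b 0 = a n + ext0 u n := by
      rw [Nat.sub_self]; abel
    rw [h4]
    have := norm_add_le (a n) (ext0 u n)
    linarith

end Pool.Agent.HM
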