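import Pool.Agent.Lib.MP_1e8d1a_an.HM.Loc
import Pool.Agent.Lib.MP_1e8d1a_an.HM.Defs

/-! Linking of orbits at a hyperbolic fixed point of a map of a manifold. -/

open scoped ContDiff Manifold Topology

namespace Pool.Agent.HM

/-- orbits can be linked at `p` -/
def LinkAt {N : Type} [TopologicalSpace N] (h : N → N) (p : N) : Prop :=
  ∀ V ∈ 𝓝 p, ∃ V' ∈ 𝓝 p, ∀ a b : ℕ → N, (∀ j, a (j + 1) = h (a j)) → (∀ j, h (b (j + 1)) = b j) →
    (∀ j, a j ∈ V') → (∀ j, b j ∈ V') → Filter.Tendsto a Filter.atTop (𝓝 p) →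
    Filter.Tendsto b Filter.atTop (𝓝 p) → ∀ A ∈ 𝓝 (a 0), ∀ B ∈ 𝓝 (b 0), ∃ n₀ : ℕ, ∀ n ≥ n₀,
      ∃ z ∈ A, h^[n] z ∈ B ∧ ∀ j ≤ n, h^[j] z ∈ V

variable {E : Type} [NormedAddCommGroup E] [NormedSpace ℝ E] {H : Type} [TopologicalSpace H]
  {J : ModelWithCorners ℝ E H} {N : Type} [TopologicalSpace N] [ChartedSpace H N]

/-- the representation in the chart at `p` -/
noncomputable def rep (J : ModelWithCorners ℝ E H) (h : N → N) (p : N) (v : E) : E :=
  extChartAt J p (h ((extChartAt J p).symm (extChartAt J p p + v))) - extChartAt J p p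

theorem mfderiv_eq [J.Boundaryless] (h : N → N) (p : N) (hd : MDifferentiableAt J J h p) :
    (mfderiv J J h p : E →L[ℝ] E) =
      fderiv ℝ (writtenInExtChartAt J J p h) (extChartAt J p p) := by
  have h1 : (mfderiv J J h p : E →L[ℝ] E) =
      fderivWithin ℝ (writtenInExtChartAt J J p h) (Set.range J) (extChartAt J p p) := hd.mfderiv
  rw [J.range_eq_univ, fderivWithin_univ] at h1
  exact h1

theorem rep_strict [IsManifold J ∞ N] [J.Boundaryless] (h : N → N) (p : N) (hp : h p = p)
    (hh : ContMDiffAt J J 1 h p) :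
    HasStrictFDerivAt (rep J h p) (fderiv ℝ (writtenInExtChartAt J J p h) (extChartAt J p p)) 0 := by
  have h1 : ContDiffAt ℝ 1 (writtenInExtChartAt J J p h) (extChartAt J p p) := by
    have h2 := (contMDiffAt_iff.1 hh).2
    rw [J.range_eq_univ, contDiffWithinAt_univ] at h2
    exact h2
  have h3 := h1.hasStrictFDerivAt (by simp)
  have h6 : HasStrictFDerivAt (fun v : E => extChartAt J p p + v) (ContinuousLinearMap.id ℝ E) 0 :=
    (hasStrictFDerivAt_id (0 : E)).const_add _
  have h7 : HasStrictFDerivAt (writtenInExtChartAt J J p h)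
      (fderiv ℝ (writtenInExtChartAt J J p h) (extChartAt J p p))
      ((fun v : E => extChartAt J p p + v) 0) := by
    simpa using h3
  have h8 := (h7.comp (0 : E) h6).sub_const (extChartAt J p p)
  rw [ContinuousLinearMap.comp_id] at h8
  refine h8.congr_of_eventuallyEq (Filter.Eventually.of_forall fun v => ?_)
  show writtenInExtChartAt J J p h (extChartAt J p p + v) - extChartAt J p p = rep J h p v
  unfold rep writtenInExtChartAt
  simp only [Function.comp, hp]

theorem rep_zero (h : N → N) (p : N) (hp : h p = p) : rep J h p 0 = 0 := by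
  unfold rep
  rw [add_zero, extChartAt_to_inv, hp, sub_self]

/-- the basis of neighbourhoods -/
theorem ball_mem [J.Boundaryless] (p : N) {ρ : ℝ} (hρ : 0 < ρ) :
    {x | x ∈ (extChartAt J p).source ∧ ‖extChartAt J p x - extChartAt J p p‖ < ρ} ∈ 𝓝 p := by
  have h1 : (extChartAt J p).source ∈ 𝓝 p := extChartAt_source_mem_nhds p
  have h2 : ∀ᶠ x in 𝓝 p, ‖extChartAt J p x - extChartAt J p p‖ < ρ := by
    have h3 : Filter.Tendsto (fun x => ‖extChartAt J p x - extChartAt J p p‖) (𝓝 p) (𝓝 0) := by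
      have h4 := ((continuousAt_extChartAt (I := J) p).tendsto.sub_const (extChartAt J p p)).norm
      rw [sub_self, norm_zero] at h4
      exact h4
    exact h3.eventually_lt_const hρ
  filter_upwards [h1, h2] with x h3 h4
  exact ⟨h3, h4⟩

theorem linkAt_of_hyp [CompleteSpace E] [IsManifold J ∞ N] [J.Boundaryless] (h : N → N) (p : N)
    (hc : Continuous h) (hh : ContMDiffAt J J 1 h p) (hp : HypFixed J h p) : LinkAt h p := by
  obtain ⟨hp, B, P, C, θ, hC, h0, h1, hAB, -, -, hst, hun⟩ := hp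
  have hmf : (mfderiv J J h p : E →L[ℝ] E) =
      fderiv ℝ (writtenInExtChartAt J J p h) (extChartAt J p p) :=
    mfderiv_eq h p (hh.mdifferentiableAt (by simp))
  generalize (mfderiv J J h p : E →L[ℝ] E) = T at hmf hAB hst hun
  set e := extChartAt J p with he
  have hstrict := rep_strict h p hp hh
  have hrep0 := rep_zero (J := J) h p hp
  intro V hV
  -- a small ball around `e p`
  have k1 : ∀ᶠ v in 𝓝 (0 : E), e p + v ∈ e.target ∧ e.symm (e p + v) ∈ V ∧
      h (e.symm (e p + v)) ∈ e.source := by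
    have c1 : Filter.Tendsto (fun v : E => e p + v) (𝓝 0) (𝓝 (e p)) := by
      have : ContinuousAt (fun v : E => e p + v) 0 := by fun_prop
      rw [ContinuousAt, add_zero] at this
      exact this
    have c2 : Filter.Tendsto (fun v : E => e.symm (e p + v)) (𝓝 0) (𝓝 p) := by
      have c3 := (continuousAt_extChartAt_symm (I := J) p).tendsto
      rw [extChartAt_to_inv] at c3
      exact c3.comp c1
    have c4 : Filter.Tendsto (fun v : E => h (e.symm (e p + v))) (𝓝 0) (𝓝 p) := by
      have c5 := hc.tendsto p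
      rw [hp] at c5
      exact c5.comp c2
    exact (c1.eventually (extChartAt_target_mem_nhds (I := J) p)).and
      ((c2.eventually hV).and (c4.eventually (extChartAt_source_mem_nhds (I := J) p)))
  obtain ⟨ρ, hρ, hball⟩ := Metric.mem_nhds_iff.1 k1
  have hball' : ∀ v : E, ‖v‖ < ρ → e p + v ∈ e.target ∧ e.symm (e p + v) ∈ V ∧
      h (e.symm (e p + v)) ∈ e.source := fun v hv => hball (mem_ball_zero_iff.2 hv)
  rw [← hmf] at hstrict
  obtain ⟨ρ', hρ', hlink⟩ := link_local (rep J h p) T B P hC h0 h1 hAB hst hun hrep0 hstrict hρ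
  refine ⟨{x | x ∈ e.source ∧ ‖e x - e p‖ < ρ'}, ball_mem p hρ', fun a b ha hb haV hbV hat hbt A hA
    B' hB' => ?_⟩
  have hrep : ∀ x, x ∈ e.source → rep J h p (e x - e p) = e (h x) - e p := by
    intro x hx
    unfold rep
    rw [← he, add_sub_cancel, e.left_inv hx]
  have hta : ∀ c : ℕ → N, Filter.Tendsto c Filter.atTop (𝓝 p) →
      Filter.Tendsto (fun j => e (c j) - e p) Filter.atTop (𝓝 0) := by
    intro c hc
    have c1 := ((continuousAt_extChartAt (I := J) p).tendsto.comp hc).sub_const (e p)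
    rw [← he, sub_self] at c1
    exact c1
  -- neighbourhoods in the chart
  have hnb : ∀ x ∈ e.source, ∀ A ∈ 𝓝 x, ∃ ε > 0, ∀ v : E, ‖v - (e x - e p)‖ < ε →
      e.symm (e p + v) ∈ A := by
    intro x hx A hA
    have c1 : Filter.Tendsto (fun v : E => e.symm (e p + v)) (𝓝 (e x - e p)) (𝓝 x) := by
      have c2 : Filter.Tendsto (fun v : E => e p + v) (𝓝 (e x - e p)) (𝓝 (e x)) := by
        have : ContinuousAt (fun v : E => e p + v) (e x - e p) := by fun_prop
        rw [ContinuousAt, add_sub_cancel] at this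
        exact this
      have c3 : ContinuousAt e.symm (e x) := continuousAt_extChartAt_symm' hx
      have c4 := c3.tendsto
      rw [e.left_inv hx] at c4
      exact c4.comp c2
    obtain ⟨ε, hε, hε2⟩ := Metric.mem_nhds_iff.1 (c1 hA)
    exact ⟨ε, hε, fun v hv => hε2 (by rw [Metric.mem_ball, dist_eq_norm]; exact hv)⟩
  obtain ⟨ε₁, hε₁, hA'⟩ := hnb (a 0) (haV 0).1 A hA
  obtain ⟨ε₂, hε₂, hB''⟩ := hnb (b 0) (hbV 0).1 B' hB'
  obtain ⟨n₀, hn₀⟩ := hlink (fun j => e (a j) - e p) (fun j => e (b j) - e p)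
    (fun j => by show e (a (j + 1)) - e p = _; rw [hrep _ (haV j).1, ha])
    (fun j => by show rep J h p (e (b (j + 1)) - e p) = _; rw [hrep _ (hbV (j + 1)).1, hb])
    (fun j => (haV j).2) (fun j => (hbV j).2) (hta a hat) (hta b hbt) (min ε₁ ε₂)
    (lt_min hε₁ hε₂)
  refine ⟨n₀, fun n hn => ?_⟩
  obtain ⟨z, hz1, hz2, hz3, hz4⟩ := hn₀ n hn
  have hit : ∀ j ≤ n, h^[j] (e.symm (e p + z 0)) = e.symm (e p + z j) := by
    intro j
    induction j with
    | zero => intro _; rfl
    | succ j ih =>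
      intro hj
      rw [Function.iterate_succ_apply', ih (by omega), hz1 j (by omega)]
      obtain ⟨-, -, c3⟩ := hball' (z j) (hz2 j (by omega))
      unfold rep
      rw [← he, add_sub_cancel, e.left_inv c3]
  refine ⟨e.symm (e p + z 0), hA' _ (hz3.trans_le (min_le_left _ _)), ?_, fun j hj => ?_⟩
  · rw [hit n le_rfl]
    exact hB'' _ (hz4.trans_le (min_le_right _ _))
  · rw [hit j hj]
    exact (hball' (z j) (hz2 j hj)).2.1

end Pool.Agent.HM
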